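import Mathlib

/-! Metric graphs, free double covers, points, divisors and the Abel-Prym map: definitions. -/

set_option autoImplicit false

namespace Pool.Agent.H53.AP

/-- A model of a metric graph: sets `V` of vertices and `E` of edges (loops and multiple edges are
allowed), the starting point, the end point and the length of each edge. -/
structure MetricGraph (V E : Type) where
  src : E → V
  tgt : E → V
  len : E → ℝ
  len_pos : ∀ e, 0 < len e

namespace MetricGraph

variable {V E : Type} (G : MetricGraph V E)

/-- The incidence graph on the set of the vertices and edges: a vertex and an edge are adjacent if the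
vertex is an end of the edge. -/
def incidence : SimpleGraph (V ⊕ E) :=
  SimpleGraph.fromRel fun x y =>
    ∃ (v : V) (e : E), x = Sum.inl v ∧ y = Sum.inr e ∧ (G.src e = v ∨ G.tgt e = v)

/-- The metric graph is connected. -/
def IsConnected : Prop := G.incidence.Connected

/-- The metric graph remains connected if a point is removed: a vertex, or a point in the interior of an
edge (then the graph without the edge is connected, and each of the two open segments which remain of
the edge is attached to a vertex). -/
def IsTwoConnected : Prop := ∀ x : V ⊕ E, (G.incidence.induce {x}ᶜ).Preconnected

/-- The points of the metric graph: the vertices, and the points in the interior of the edges, given by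
the edge and the distance from its starting point. -/
abbrev Point : Type := V ⊕ {x : E × ℝ // 0 < x.2 ∧ x.2 < G.len x.1}

open Classical in
/-- `1` if the point lies in the interior of the edge `e`, and `0` otherwise. -/
noncomputable def onEdge (e : E) : G.Point → ℤ
  | Sum.inl _ => 0
  | Sum.inr x => if x.1.1 = e then 1 else 0

open Classical in
/-- The distance of the point to the end of the edge `e` if it lies in the interior of `e`, and `0`
otherwise. -/
noncomputable def rest (e : E) : G.Point → ℝ
  | Sum.inl _ => 0
  | Sum.inr x => if x.1.1 = e then G.len e - x.1.2 else 0

open Classical in
/-- The divisor `D` is principal: there is a continuous piecewise linear function with integer slopes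
whose divisor (the sum of the outgoing slopes at each point) is `D`. It has the value `f v` at the vertex
`v`, the slope `a e` at the beginning of the edge `e`, and its slope on `e` increases by `D x` at each
point `x` in the interior of `e`; this determines its value and slope at the end of `e`. -/
def IsPrincipal [Fintype E] (D : G.Point →₀ ℤ) : Prop :=
  ∃ (f : V → ℝ) (a : E → ℤ),
    (∀ e, f (G.tgt e) = f (G.src e) + a e * G.len e + D.sum fun x c => c • G.rest e x) ∧
    ∀ v, D (Sum.inl v) = (∑ e, if G.src e = v then a e else 0) -
      ∑ e, if G.tgt e = v then (a e + D.sum fun x c => c • G.onEdge e x) else 0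

/-- The free double cover given by `sw`: there are two copies (sheets) of each vertex and each edge; the
copy of the edge `e` which starts in the sheet `s` ends in the sheet `s` if `sw e = false` and in the other
one if `sw e = true`. -/
def cover (sw : E → Bool) : MetricGraph (V × Bool) (E × Bool) where
  src x := (G.src x.1, x.2)
  tgt x := (G.tgt x.1, xor x.2 (sw x.1))
  len x := G.len x.1
  len_pos x := G.len_pos x.1

end MetricGraph

/-- the involution on the vertices and the edges of the cover -/
def inv {A : Type} (x : A × Bool) : A × Bool := (x.1, !x.2)

/-- The involution `ι` of the double cover. -/
def swap {V E : Type} {G : MetricGraph V E} {sw : E → Bool} :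
    (G.cover sw).Point → (G.cover sw).Point
  | Sum.inl w => Sum.inl (inv w)
  | Sum.inr x => Sum.inr ⟨(inv x.1.1, x.1.2), x.2⟩

/-- The divisors `x - ι x` and `y - ι y` are linearly equivalent, that is `Ψ₁ x = Ψ₁ y`. -/
def SameClass {V E : Type} [Fintype E] {G : MetricGraph V E} {sw : E → Bool}
    (x y : (G.cover sw).Point) : Prop :=
  (G.cover sw).IsPrincipal ((Finsupp.single x 1 - Finsupp.single (swap x) 1) -
    (Finsupp.single y 1 - Finsupp.single (swap y) 1))

end Pool.Agent.H53.AP
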