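import Mathlib
import Pool.Agent.H53.AP.Defs

/-! Free double covers of metric graphs: the combinatorial argument for the Abel-Prym map. -/

set_option autoImplicit false
set_option linter.unusedSectionVars false

namespace Pool.Agent.H53.AP

@[simp] lemma inv_inv {A : Type} (x : A × Bool) : inv (inv x) = x := by
  simp [inv]

lemma inv_ne {A : Type} (x : A × Bool) : inv x ≠ x := by
  intro h
  have := congrArg Prod.snd h
  simp [inv] at this

lemma inv_inj {A : Type} {x y : A × Bool} (h : inv x = inv y) : x = y := by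
  rw [← inv_inv x, h, inv_inv]

lemma eq_or_eq_inv {A : Type} {x y : A × Bool} (h : x.1 = y.1) : x = y ∨ x = inv y := by
  rcases x with ⟨a, s⟩
  rcases y with ⟨b, t⟩
  simp only at h
  subst h
  cases s <;> cases t <;> simp [inv]

section harmonic

variable {V E : Type} [Fintype V] [Fintype E] [DecidableEq V] (G : MetricGraph V E)

lemma sum_div {a : E → ℝ} (g : V → ℝ) :
    ∑ w, g w * ((∑ e, if G.tgt e = w then a e else 0) - ∑ e, if G.src e = w then a e else 0) =
      ∑ e, a e * (g (G.tgt e) - g (G.src e)) := by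
  have h1 : ∀ t : E → V, ∑ w, g w * (∑ e, if t e = w then a e else 0) = ∑ e, a e * g (t e) := by
    intro t
    simp only [Finset.mul_sum]
    rw [Finset.sum_comm]
    refine Finset.sum_congr rfl fun e _ => ?_
    rw [Finset.sum_eq_single (t e)]
    · rw [if_pos rfl, mul_comm]
    · intro w _ hw
      rw [if_neg (Ne.symm hw), mul_zero]
    · simp
  simp only [mul_sub, Finset.sum_sub_distrib]
  rw [h1, h1]

/-- harmonic functions are constant along the edges -/
lemma harmonic {g : V → ℝ} {a : E → ℝ} (ha : ∀ e, g (G.tgt e) - g (G.src e) = a e * G.len e)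
    (hd : ∀ w, (∑ e, if G.tgt e = w then a e else 0) - (∑ e, if G.src e = w then a e else 0) = 0) :
    ∀ e, g (G.tgt e) = g (G.src e) := by
  have h1 := sum_div G (a := a) g
  simp only [hd, mul_zero, Finset.sum_const_zero] at h1
  have h2 : ∑ e, a e * (a e * G.len e) = 0 := by
    rw [h1]
    exact Finset.sum_congr rfl fun e _ => by rw [ha]
  have h3 : ∀ e, 0 ≤ a e * (a e * G.len e) := by
    intro e
    rw [← mul_assoc]
    exact mul_nonneg (mul_self_nonneg _) (G.len_pos e).le
  rw [Finset.sum_eq_zero_iff_of_nonneg fun e _ => h3 e] at h2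
  intro e
  have h4 := h2 e (Finset.mem_univ _)
  have h5 : a e = 0 := by
    rcases mul_eq_zero.1 h4 with h | h
    · exact h
    · rcases mul_eq_zero.1 h with h | h
      · exact h
      · exact absurd h (G.len_pos e).ne'
  have h6 := ha e
  rw [h5, zero_mul] at h6
  exact sub_eq_zero.1 h6

end harmonic

section core

variable {V E : Type} [Fintype V] [Fintype E] [DecidableEq V] [DecidableEq E]
  (G : MetricGraph V E) (sw : E → Bool)

lemma src_inv (x : E × Bool) : (G.cover sw).src (inv x) = inv ((G.cover sw).src x) := rfl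

lemma tgt_inv (x : E × Bool) : (G.cover sw).tgt (inv x) = inv ((G.cover sw).tgt x) := by
  rcases x with ⟨e, s⟩
  cases s <;> cases h : sw e <;> simp [MetricGraph.cover, inv, h]

lemma len_inv (x : E × Bool) : (G.cover sw).len (inv x) = (G.cover sw).len x := rfl

/-- the divisor `p + ι q - q - ι p` -/
def pryD (p q w : V × Bool) : ℤ :=
  (if w = p then 1 else 0) + (if w = inv q then 1 else 0) - (if w = q then 1 else 0) -
    (if w = inv p then 1 else 0)

lemma pryD_inv (p q w : V × Bool) : pryD p q (inv w) = - pryD p q w := by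
  have h1 : ∀ x : V × Bool, (inv w = x) = (w = inv x) := by
    intro x
    refine propext ⟨fun h => by rw [← h, inv_inv], fun h => by rw [h, inv_inv]⟩
  unfold pryD
  simp only [h1, inv_inv]
  ring

/-- an involution-sum identity -/
lemma sum_inv (F : E × Bool → ℝ) : ∑ x, F (inv x) = ∑ x, F x := by
  refine Fintype.sum_equiv ⟨inv, inv, inv_inv, inv_inv⟩ _ _ fun x => rfl

/-- The core theorem. -/
theorem core (hconn : ∀ S : Set (V × Bool), S.Nonempty →
      (∀ x, (G.cover sw).src x ∈ S ↔ (G.cover sw).tgt x ∈ S) → ∀ w, w ∈ S)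
    (hbr : ∀ (e : E) (U : Set V), U.Nonempty → (∀ e', e' ≠ e → (G.src e' ∈ U ↔ G.tgt e' ∈ U)) →
      ∀ v, v ∈ U)
    (hcut₀ : ∀ (z : V) (U : Set V) (F : Set E), z ∉ U → (U.Nonempty ∨ F.Nonempty) →
      (∀ e ∈ F, (G.src e ∈ U ∨ G.src e = z) ∧ (G.tgt e ∈ U ∨ G.tgt e = z)) →
      (∀ e, G.src e ∈ U ∨ G.tgt e ∈ U → e ∈ F) → (∀ v, v ≠ z → v ∈ U) ∧ ∀ e, e ∈ F)
    {f₀ : V × Bool → ℝ} {a : E × Bool → ℤ}
    (hf₀ : ∀ x, f₀ ((G.cover sw).tgt x) - f₀ ((G.cover sw).src x) = a x * (G.cover sw).len x)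
    {p q : V × Bool}
    (hdiv : ∀ w, (∑ x, if (G.cover sw).tgt x = w then a x else 0) -
      (∑ x, if (G.cover sw).src x = w then a x else 0) = pryD p q w) (hpq : p ≠ q) :
    ∃ (S : Set (V × Bool)) (x₀ : E × Bool), (∀ w, w ∈ S ↔ inv w ∉ S) ∧
      ((G.cover sw).src x₀ ∈ S ↔ (G.cover sw).tgt x₀ ∉ S) ∧
      ∀ x, ((G.cover sw).src x ∈ S ↔ (G.cover sw).tgt x ∉ S) → x = x₀ ∨ x = inv x₀ := by
  classical
  have hcut : ∀ (z : V) (U : Set V), U.Nonempty → z ∉ U →
      (∀ e, G.src e ∈ U → G.tgt e ∈ U ∨ G.tgt e = z) →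
      (∀ e, G.tgt e ∈ U → G.src e ∈ U ∨ G.src e = z) →
      (∀ v, v ≠ z → v ∈ U) ∧ ∀ e, G.src e ∈ U ∨ G.tgt e ∈ U := by
    intro z U h1 h2 h3 h4
    exact hcut₀ z U {e | G.src e ∈ U ∨ G.tgt e ∈ U} h2 (Or.inl h1) (by
      rintro e (he | he)
      · exact ⟨Or.inl he, h3 e he⟩
      · exact ⟨h4 e he, Or.inl he⟩) (fun e he => he)
  set H := G.cover sw with hH
  have hsi : ∀ x, H.src (inv x) = inv (H.src x) := src_inv G sw
  have hti : ∀ x, H.tgt (inv x) = inv (H.tgt x) := tgt_inv G sw
  have hli : ∀ x, H.len (inv x) = H.len x := len_inv G sw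
  -- a function is constant if it is constant along the edges
  have hconst : ∀ g : V × Bool → ℝ, (∀ x, g (H.tgt x) = g (H.src x)) → ∀ w w', g w = g w' := by
    intro g hg w w'
    exact hconn {u | g u = g w'} ⟨w', rfl⟩ (fun x => by simp [hg x]) w
  -- normalisation: `f` is antisymmetric
  obtain ⟨f, hf, hanti⟩ : ∃ f : V × Bool → ℝ, (∀ x, f (H.tgt x) - f (H.src x) = a x * H.len x) ∧
      ∀ w, f (inv w) = - f w := by
    have hdivR : ∀ w, (∑ x, if H.tgt x = w then (a x : ℝ) else 0) -
        (∑ x, if H.src x = w then (a x : ℝ) else 0) = (pryD p q w : ℝ) := by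
      intro w
      rw [← hdiv w]
      push_cast
      rfl
    have h1 : ∀ x, (fun w => f₀ w + f₀ (inv w)) (H.tgt x) = (fun w => f₀ w + f₀ (inv w)) (H.src x) := by
      refine harmonic H (g := fun w => f₀ w + f₀ (inv w)) (a := fun x => (a x : ℝ) + a (inv x)) ?_ ?_
      · intro x
        have h2 := hf₀ x
        have h3 := hf₀ (inv x)
        rw [hti, hsi, hli] at h3
        linarith
      · intro w
        have h4 : ∀ t : E × Bool → V × Bool, (∀ x, t (inv x) = inv (t x)) →
            ∑ x, (if t x = w then (a x : ℝ) + a (inv x) else 0) =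
              (∑ x, if t x = w then (a x : ℝ) else 0) + ∑ x, if t x = inv w then (a x : ℝ) else 0 := by
          intro t ht
          rw [← sum_inv (fun x => if t x = inv w then (a x : ℝ) else 0), ← Finset.sum_add_distrib]
          refine Finset.sum_congr rfl fun x _ => ?_
          have h5 : (t (inv x) = inv w) = (t x = w) := by
            rw [ht]
            exact propext ⟨fun h => inv_inj h, fun h => by rw [h]⟩
          simp only [h5]
          split_ifs <;> simp
        rw [h4 H.tgt hti, h4 H.src hsi]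
        have h6 := hdivR w
        have h7 := hdivR (inv w)
        rw [pryD_inv] at h7
        push_cast at h7
        linarith
    have h2 := hconst (fun w => f₀ w + f₀ (inv w)) h1
    refine ⟨fun w => f₀ w - (f₀ p + f₀ (inv p)) / 2, fun x => ?_, fun w => ?_⟩
    · have := hf₀ x
      simp only
      linarith
    · have := h2 w p
      simp only at this ⊢
      linarith
  have hainv : ∀ x, a (inv x) = - a x := by
    intro x
    have h1 := hf (inv x)
    rw [hti, hsi, hli, hanti, hanti] at h1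
    have h2 := hf x
    have h3 : ((a (inv x) : ℝ) + a x) * H.len x = 0 := by linarith
    have h4 : (a (inv x) : ℝ) + a x = 0 := by
      rcases mul_eq_zero.1 h3 with h | h
      · exact h
      · exact absurd h (H.len_pos x).ne'
    have h5 : (a (inv x) : ℝ) = ((- a x : ℤ) : ℝ) := by
      push_cast
      linarith
    exact_mod_cast h5
  -- the divergence of a superlevel set
  have hsum : ∀ A : Finset (V × Bool), ∑ w ∈ A, pryD p q w =
      ∑ x, a x * ((if H.tgt x ∈ A then 1 else 0) - if H.src x ∈ A then 1 else 0) := by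
    intro A
    have h1 : ∀ t : E × Bool → V × Bool, ∑ w ∈ A, (∑ x, if t x = w then a x else 0) =
        ∑ x, a x * (if t x ∈ A then 1 else 0) := by
      intro t
      rw [Finset.sum_comm]
      refine Finset.sum_congr rfl fun x _ => ?_
      rw [Finset.sum_ite_eq]
      split_ifs <;> simp
    simp only [← hdiv, Finset.sum_sub_distrib, mul_sub]
    rw [h1, h1]
  have hapos : ∀ x, f (H.src x) < f (H.tgt x) → 1 ≤ a x := by
    intro x hx
    have h1 := hf x
    by_contra h2
    have h3 : (a x : ℝ) ≤ 0 := by exact_mod_cast (by omega : a x ≤ 0)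
    have := mul_nonpos_of_nonpos_of_nonneg h3 (H.len_pos x).le
    linarith
  have haneg : ∀ x, f (H.tgt x) < f (H.src x) → a x ≤ -1 := by
    intro x hx
    have h1 := hf x
    by_contra h2
    have h3 : (0 : ℝ) ≤ a x := by exact_mod_cast (by omega : 0 ≤ a x)
    have := mul_nonneg h3 (H.len_pos x).le
    linarith
  have hazero : ∀ x, f (H.tgt x) = f (H.src x) → a x = 0 := by
    intro x hx
    have h1 := hf x
    rw [hx, sub_self] at h1
    rcases mul_eq_zero.1 h1.symm with h | h
    · exact_mod_cast h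
    · exact absurd h (H.len_pos x).ne'
  -- the set where `f` is positive
  set A : Finset (V × Bool) := Finset.univ.filter fun w => 0 < f w with hA
  have hAm : ∀ w, w ∈ A ↔ 0 < f w := fun w => by simp [hA]
  set X : Finset (E × Bool) := Finset.univ.filter fun x => (H.src x ∈ A ∧ H.tgt x ∉ A) ∨
    (H.src x ∉ A ∧ H.tgt x ∈ A) with hX
  have hXm : ∀ x, x ∈ X ↔ (H.src x ∈ A ∧ H.tgt x ∉ A) ∨ (H.src x ∉ A ∧ H.tgt x ∈ A) :=
    fun x => by simp [hX]
  have hterm : ∀ x, a x * ((if H.tgt x ∈ A then 1 else 0) - if H.src x ∈ A then 1 else 0) =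
      if x ∈ X then |a x| else 0 := by
    intro x
    by_cases h1 : H.src x ∈ A <;> by_cases h2 : H.tgt x ∈ A
    · rw [if_pos h1, if_pos h2, if_neg (by rw [hXm]; tauto)]
      ring
    · rw [if_pos h1, if_neg h2, if_pos (by rw [hXm]; tauto)]
      rw [hAm] at h1 h2
      have := haneg x (by linarith)
      rw [abs_of_neg (by omega)]
      ring
    · rw [if_neg h1, if_pos h2, if_pos (by rw [hXm]; tauto)]
      rw [hAm] at h1 h2
      have := hapos x (by linarith)
      rw [abs_of_pos (by omega)]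
      ring
    · rw [if_neg h1, if_neg h2, if_neg (by rw [hXm]; tauto)]
      ring
  have hXabs : ∀ x ∈ X, 1 ≤ |a x| := by
    intro x hx
    rcases (hXm x).1 hx with ⟨h1, h2⟩ | ⟨h1, h2⟩
    · rw [hAm] at h1 h2
      have := haneg x (by linarith)
      rw [abs_of_neg (by omega)]
      omega
    · rw [hAm] at h1 h2
      have := hapos x (by linarith)
      rw [abs_of_pos (by omega)]
      omega
  have hDA : ∑ w ∈ A, pryD p q w = ∑ x ∈ X, |a x| := by
    rw [hsum A]
    simp only [hterm]
    rw [← Finset.sum_filter]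
    congr 1
    ext x
    simp
  -- `A` is not empty
  have hAne : A.Nonempty := by
    by_contra hno
    rw [Finset.not_nonempty_iff_eq_empty] at hno
    have h0 : ∀ w, f w = 0 := by
      intro w
      have h1 : ¬ 0 < f w := by
        rw [← hAm, hno]
        simp
      have h2 : ¬ 0 < f (inv w) := by
        rw [← hAm, hno]
        simp
      rw [hanti] at h2
      linarith
    have h1 : ∀ x, a x = 0 := fun x => hazero x (by rw [h0, h0])
    have h2 := hdiv p
    simp only [h1, ite_self, Finset.sum_const_zero, sub_zero] at h2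
    unfold pryD at h2
    rw [if_pos rfl, if_neg hpq, if_neg (inv_ne p).symm] at h2
    split_ifs at h2 <;> omega
  have hdisj : ∀ w, w ∈ A → inv w ∉ A := by
    intro w hw
    rw [hAm] at hw ⊢
    rw [hanti]
    linarith
  -- at least two crossing edges
  have hX2 : 2 ≤ X.card := by
    by_contra hlt
    obtain ⟨w₁, hw₁⟩ := hAne
    have hXne : X.Nonempty := by
      by_contra hno
      rw [Finset.not_nonempty_iff_eq_empty] at hno
      have h1 := hconn (A : Set (V × Bool)) ⟨w₁, by simpa using hw₁⟩ (fun x => by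
        have h2 : x ∉ X := by rw [hno]; simp
        rw [hXm] at h2
        simp only [Finset.mem_coe]
        tauto) (inv w₁)
      exact hdisj w₁ hw₁ (by simpa using h1)
    obtain ⟨x₁, hx₁⟩ := Finset.card_eq_one.1 (by
      have := Finset.card_pos.2 hXne
      omega : X.card = 1)
    have hx₁X : x₁ ∈ X := by rw [hx₁]; simp
    have hinvX : inv x₁ ∉ X := by
      rw [hx₁, Finset.mem_singleton]
      exact inv_ne x₁
    have hall := hbr x₁.1 {v | ∃ s, (v, s) ∈ A} ⟨w₁.1, w₁.2, hw₁⟩ (by
      intro e' he'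
      have h1 : ∀ s, (e', s) ∉ X := by
        intro s hs
        rw [hx₁, Finset.mem_singleton] at hs
        exact he' (by rw [← hs])
      constructor
      · rintro ⟨s, hs⟩
        have h2 := h1 s
        rw [hXm] at h2
        have h3 : H.src (e', s) ∈ A := hs
        have h4 : H.tgt (e', s) ∈ A := by tauto
        exact ⟨_, h4⟩
      · rintro ⟨s, hs⟩
        have h2 := h1 (xor s (sw e'))
        rw [hXm] at h2
        have h3 : H.tgt (e', xor s (sw e')) ∈ A := by
          have h4 : H.tgt (e', xor s (sw e')) = (G.tgt e', s) := by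
            rw [hH]
            simp [MetricGraph.cover]
          rw [h4]
          exact hs
        have h4 : H.src (e', xor s (sw e')) ∈ A := by tauto
        exact ⟨_, h4⟩)
    -- the other end of `x₁`
    have hother : ∀ w, w ∉ A → inv w ∉ A → False := by
      intro w h1 h2
      obtain ⟨s, hs⟩ := hall w.1
      rcases eq_or_eq_inv (x := (w.1, s)) (y := w) rfl with h3 | h3
      · exact h1 (h3 ▸ hs)
      · exact h2 (h3 ▸ hs)
    rw [hXm] at hinvX
    rw [hsi, hti] at hinvX
    rcases (hXm x₁).1 hx₁X with ⟨h1, h2⟩ | ⟨h1, h2⟩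
    · exact hother _ h2 fun h3 => hinvX (Or.inr ⟨hdisj _ h1, h3⟩)
    · exact hother _ h1 fun h3 => hinvX (Or.inl ⟨h3, hdisj _ h2⟩)
  -- the divisor on `A`
  have hDle : ∑ w ∈ A, pryD p q w ≤ (if p ∈ A then 1 else 0) + (if inv q ∈ A then 1 else 0) := by
    unfold pryD
    simp only [Finset.sum_sub_distrib, Finset.sum_add_distrib, Finset.sum_ite_eq']
    have h1 : ∀ P : Prop, [Decidable P] → (0 : ℤ) ≤ if P then 1 else 0 := by
      intro P _
      split_ifs <;> simp
    have h2 := h1 (q ∈ A)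
    have h3 := h1 (inv p ∈ A)
    omega
  have hXle : (X.card : ℤ) ≤ ∑ x ∈ X, |a x| := by
    calc (X.card : ℤ) = ∑ x ∈ X, 1 := by simp
      _ ≤ ∑ x ∈ X, |a x| := Finset.sum_le_sum hXabs
  have hpA : p ∈ A := by
    by_contra h1
    rw [if_neg h1] at hDle
    split_ifs at hDle <;> omega
  have hqA : inv q ∈ A := by
    by_contra h1
    rw [if_neg h1] at hDle
    split_ifs at hDle <;> omega
  rw [if_pos hpA, if_pos hqA] at hDle
  have hXcard : X.card = 2 := by omega
  have habs1 : ∀ x ∈ X, |a x| = 1 := by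
    intro x hx
    by_contra hne
    have h1 := hXabs x hx
    have h2 : (X.card : ℤ) < ∑ x ∈ X, |a x| := by
      calc (X.card : ℤ) = ∑ x ∈ X, 1 := by simp
        _ < ∑ x ∈ X, |a x| := Finset.sum_lt_sum hXabs ⟨x, hx, by omega⟩
    omega
  -- the ends of an edge
  let Ends : E × Bool → V × Bool → V × Bool → Prop := fun y u v =>
    (H.src y = u ∧ H.tgt y = v) ∨ (H.src y = v ∧ H.tgt y = u)
  have E1 : ∀ y u v, Ends y u v → u ∈ A → v ∉ A → y ∈ X := by
    rintro y u v (⟨rfl, rfl⟩ | ⟨rfl, rfl⟩) hu hv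
    · exact (hXm y).2 (Or.inl ⟨hu, hv⟩)
    · exact (hXm y).2 (Or.inr ⟨hv, hu⟩)
  have E2 : ∀ y ∈ X, ∃ u v, Ends y u v ∧ u ∈ A ∧ v ∉ A := by
    intro y hy
    rcases (hXm y).1 hy with ⟨h1, h2⟩ | ⟨h1, h2⟩
    · exact ⟨_, _, Or.inl ⟨rfl, rfl⟩, h1, h2⟩
    · exact ⟨_, _, Or.inr ⟨rfl, rfl⟩, h2, h1⟩
  have E3 : ∀ y u v, Ends y u v → Ends (inv y) (inv u) (inv v) := by
    rintro y u v (⟨rfl, rfl⟩ | ⟨rfl, rfl⟩)
    · exact Or.inl ⟨hsi y, hti y⟩
    · exact Or.inr ⟨hsi y, hti y⟩
  have E4 : ∀ y u v u' v', Ends y u v → Ends y u' v' → (u' = u ∧ v' = v) ∨ (u' = v ∧ v' = u) := by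
    rintro y u v u' v' (⟨rfl, rfl⟩ | ⟨rfl, rfl⟩) (⟨rfl, rfl⟩ | ⟨rfl, rfl⟩)
    · exact Or.inl ⟨rfl, rfl⟩
    · exact Or.inr ⟨rfl, rfl⟩
    · exact Or.inr ⟨rfl, rfl⟩
    · exact Or.inl ⟨rfl, rfl⟩
  have hcross : ∀ (S : Set (V × Bool)) y, (H.src y ∈ S ↔ H.tgt y ∉ S) ↔
      ∃ u v, Ends y u v ∧ u ∈ S ∧ v ∉ S := by
    intro S y
    constructor
    · intro h
      by_cases h1 : H.src y ∈ S
      · exact ⟨_, _, Or.inl ⟨rfl, rfl⟩, h1, h.1 h1⟩
      · refine ⟨_, _, Or.inr ⟨rfl, rfl⟩, ?_, h1⟩
        by_contra h2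
        exact h1 (h.2 h2)
    · rintro ⟨u, v, (⟨rfl, rfl⟩ | ⟨rfl, rfl⟩), hu, hv⟩
      · exact ⟨fun _ => hv, fun _ => hu⟩
      · exact ⟨fun h => absurd h hv, fun h => absurd hu h⟩
  have hpair : ∀ x ∈ X, ∀ x' ∈ X, x ≠ x' → ∀ y ∈ X, y = x ∨ y = x' := by
    intro x hx x' hx' hne y hy
    have h1 : ({x, x'} : Finset (E × Bool)) ⊆ X := by
      intro z hz
      rw [Finset.mem_insert, Finset.mem_singleton] at hz
      rcases hz with rfl | rfl
      · exact hx
      · exact hx'
    have h2 := Finset.eq_of_subset_of_card_le h1 (by rw [Finset.card_pair hne, hXcard])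
    rw [← h2, Finset.mem_insert, Finset.mem_singleton] at hy
    exact hy
  by_cases hI : ∃ x u v, Ends x u v ∧ u ∈ A ∧ inv v ∈ A
  · -- an edge between `A` and `ι A`
    obtain ⟨x, u, v, hx, hu, hv⟩ := hI
    have hvA : v ∉ A := by
      have := hdisj _ hv
      rwa [inv_inv] at this
    have hxX : x ∈ X := E1 x u v hx hu hvA
    have hxX' : inv x ∈ X := E1 (inv x) (inv v) (inv u) ((E3 x u v hx).symm) hv (hdisj u hu)
    have hXx := hpair x hxX (inv x) hxX' (inv_ne x).symm
    have hfu : 0 < f u := (hAm u).1 hu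
    have hfv : f v < 0 := by
      have := (hAm _).1 hv
      rw [hanti] at this
      linarith
    have hends : ∀ y ∈ X, ∀ u' v', Ends y u' v' → f u' ≠ 0 ∧ f v' ≠ 0 := by
      intro y hy u' v' hy'
      have h1 : f (inv u) ≠ 0 := by rw [hanti]; exact neg_ne_zero.2 hfu.ne'
      have h2 : f (inv v) ≠ 0 := by rw [hanti]; exact neg_ne_zero.2 hfv.ne
      rcases hXx y hy with rfl | rfl
      · rcases E4 _ _ _ _ _ hx hy' with ⟨rfl, rfl⟩ | ⟨rfl, rfl⟩
        · exact ⟨hfu.ne', hfv.ne⟩
        · exact ⟨hfv.ne, hfu.ne'⟩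
      · rcases E4 _ _ _ _ _ (E3 _ _ _ hx) hy' with ⟨rfl, rfl⟩ | ⟨rfl, rfl⟩
        · exact ⟨h1, h2⟩
        · exact ⟨h2, h1⟩
    have hno : ∀ y u' v', Ends y u' v' → f u' ≠ 0 → f v' ≠ 0 := by
      intro y u' v' hy hu' hv'
      have hv'A : v' ∉ A := by rw [hAm, hv']; exact lt_irrefl _
      have hv'A' : inv v' ∉ A := by rw [hAm, hanti, hv', neg_zero]; exact lt_irrefl _
      rcases lt_or_gt_of_ne hu' with h1 | h1
      · have h2 : inv u' ∈ A := by rw [hAm, hanti]; linarith
        have h3 := E1 _ _ _ (E3 _ _ _ hy) h2 hv'A'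
        have h4 := (hends _ h3 _ _ (E3 _ _ _ hy)).2
        rw [hanti, hv', neg_zero] at h4
        exact h4 rfl
      · have h3 := E1 _ _ _ hy ((hAm _).2 h1) hv'A
        exact (hends _ h3 _ _ hy).2 hv'
    have hne0 : ∀ w, f w ≠ 0 := by
      intro w
      exact hconn {w | f w ≠ 0} ⟨u, hfu.ne'⟩ (fun y =>
        ⟨fun h => hno y _ _ (Or.inl ⟨rfl, rfl⟩) h, fun h => hno y _ _ (Or.inr ⟨rfl, rfl⟩) h⟩) w
    refine ⟨(A : Set (V × Bool)), x, ?_, ?_, ?_⟩
    · intro w
      simp only [Finset.mem_coe]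
      refine ⟨fun h => hdisj w h, fun h => ?_⟩
      rw [hAm] at h ⊢
      rw [hanti] at h
      rcases lt_or_gt_of_ne (hne0 w) with h1 | h1
      · exact absurd (by linarith) h
      · exact h1
    · rw [hcross]
      exact ⟨u, v, hx, by simpa using hu, by simpa using hvA⟩
    · intro y hy
      rw [hcross] at hy
      obtain ⟨u', v', h1, h2, h3⟩ := hy
      exact hXx y (E1 y u' v' h1 (by simpa using h2) (by simpa using h3))
  · -- all edges which leave `A` end in the zero set
    push Not at hI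
    obtain ⟨x₁, hx₁⟩ : X.Nonempty := Finset.card_pos.1 (by omega)
    obtain ⟨u₁, z₁, hE₁, hu₁, hz₁⟩ := E2 x₁ hx₁
    have hf0 : ∀ y u v, Ends y u v → u ∈ A → v ∉ A → f v = 0 := by
      intro y u v h1 h2 h3
      have h4 := hI y u v h1 h2
      rw [hAm] at h3 h4
      rw [hanti] at h4
      linarith
    have hfz : f z₁ = 0 := hf0 x₁ u₁ z₁ hE₁ hu₁ hz₁
    have hfz' : f (inv z₁) = 0 := by rw [hanti, hfz, neg_zero]
    have hz₁' : inv z₁ ∉ A := by rw [hAm, hfz']; exact lt_irrefl _
    -- the balance at `z₁`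
    obtain ⟨x', hx', u', hE', hu'⟩ : ∃ x' ∈ X, ∃ u', Ends x' u' (inv z₁) ∧ u' ∈ A := by
      have hD0 : pryD p q z₁ = 0 := by
        have h1 : z₁ ≠ p := fun h => hz₁ (h ▸ hpA)
        have h2 : z₁ ≠ inv q := fun h => hz₁ (h ▸ hqA)
        have h3 : z₁ ≠ q := fun h => hz₁' (h ▸ hqA)
        have h4 : z₁ ≠ inv p := fun h => hz₁' (by rw [h, inv_inv]; exact hpA)
        unfold pryD
        rw [if_neg h1, if_neg h2, if_neg h3, if_neg h4]
        rfl
      have hbal := hdiv z₁
      rw [hD0, ← Finset.sum_sub_distrib] at hbal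
      have hneg : (if H.tgt x₁ = z₁ then a x₁ else 0) - (if H.src x₁ = z₁ then a x₁ else 0) < 0 := by
        have hfu : 0 < f u₁ := (hAm _).1 hu₁
        have hne : u₁ ≠ z₁ := fun h => hz₁ (h ▸ hu₁)
        rcases hE₁ with ⟨h1, h2⟩ | ⟨h1, h2⟩
        · rw [if_pos h2, if_neg (by rw [h1]; exact hne)]
          have := haneg x₁ (by rw [h1, h2, hfz]; exact hfu)
          omega
        · rw [if_neg (by rw [h2]; exact hne), if_pos h1]
          have := hapos x₁ (by rw [h1, h2, hfz]; exact hfu)
          omega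
      obtain ⟨y, -, hy⟩ := Finset.exists_pos_of_sum_zero_of_exists_nonzero _ hbal
        ⟨x₁, Finset.mem_univ _, hneg.ne⟩
      by_cases ht : H.tgt y = z₁ <;> by_cases hs : H.src y = z₁
      · rw [if_pos ht, if_pos hs] at hy
        omega
      · rw [if_pos ht, if_neg hs] at hy
        have h1 : f (H.src y) < 0 := by
          have h2 := hf y
          rw [ht, hfz] at h2
          have h3 : (0 : ℝ) < a y := by exact_mod_cast (by omega : 0 < a y)
          have := mul_pos h3 (H.len_pos y)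
          linarith
        have h2 : inv (H.src y) ∈ A := by rw [hAm, hanti]; linarith
        have h3 : Ends (inv y) (inv (H.src y)) (inv z₁) :=
          E3 y _ _ (Or.inl ⟨rfl, ht⟩)
        exact ⟨inv y, E1 _ _ _ h3 h2 hz₁', _, h3, h2⟩
      · rw [if_neg ht, if_pos hs] at hy
        have h1 : f (H.tgt y) < 0 := by
          have h2 := hf y
          rw [hs, hfz] at h2
          have h3 : (a y : ℝ) < 0 := by exact_mod_cast (by omega : a y < 0)
          have := mul_neg_of_neg_of_pos h3 (H.len_pos y)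
          linarith
        have h2 : inv (H.tgt y) ∈ A := by rw [hAm, hanti]; linarith
        have h3 : Ends (inv y) (inv (H.tgt y)) (inv z₁) :=
          E3 y _ _ (Or.inr ⟨hs, rfl⟩)
        exact ⟨inv y, E1 _ _ _ h3 h2 hz₁', _, h3, h2⟩
      · rw [if_neg ht, if_neg hs] at hy
        omega
    have hxx : x₁ ≠ x' := by
      rintro rfl
      rcases E4 _ _ _ _ _ hE₁ hE' with ⟨-, h1⟩ | ⟨h1, -⟩
      · exact inv_ne z₁ h1
      · exact hz₁ (h1 ▸ hu')
    have hXx := hpair x₁ hx₁ x' hx' hxx
    -- the other ends of the edges which leave `A`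
    have hX1 : ∀ u v, Ends x₁ u v → u ∈ A → v = z₁ := by
      intro u v h1 h2
      rcases E4 _ _ _ _ _ hE₁ h1 with ⟨-, h3⟩ | ⟨h3, -⟩
      · exact h3
      · exact absurd (h3 ▸ h2) hz₁
    have hX' : ∀ u v, Ends x' u v → u ∈ A → v = inv z₁ := by
      intro u v h1 h2
      rcases E4 _ _ _ _ _ hE' h1 with ⟨-, h3⟩ | ⟨h3, -⟩
      · exact h3
      · exact absurd (h3 ▸ h2) hz₁'
    have hXz : ∀ y u v, Ends y u v → u ∈ A → v ∉ A → v.1 = z₁.1 := by
      intro y u v h1 h2 h3
      rcases hXx y (E1 y u v h1 h2 h3) with rfl | rfl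
      · rw [hX1 u v h1 h2]
      · rw [hX' u v h1 h2]
        rfl
    set U : Set V := {v | ∃ s, (v, s) ∈ A} with hU
    have hzU : z₁.1 ∉ U := by
      rintro ⟨s, hs⟩
      rcases eq_or_eq_inv (x := (z₁.1, s)) (y := z₁) rfl with h3 | h3
      · exact hz₁ (h3 ▸ hs)
      · exact hz₁' (h3 ▸ hs)
    obtain ⟨hUv, hUe⟩ := hcut z₁.1 U ⟨u₁.1, u₁.2, hu₁⟩ hzU (by
      rintro e ⟨s, hs⟩
      have h1 : H.src (e, s) ∈ A := hs
      by_cases h2 : H.tgt (e, s) ∈ A
      · exact Or.inl ⟨_, h2⟩
      · exact Or.inr (hXz (e, s) _ _ (Or.inl ⟨rfl, rfl⟩) h1 h2)) (by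
      rintro e ⟨s, hs⟩
      have h0 : H.tgt (e, xor s (sw e)) = (G.tgt e, s) := by
        rw [hH]
        simp [MetricGraph.cover]
      have h1 : H.tgt (e, xor s (sw e)) ∈ A := by rw [h0]; exact hs
      by_cases h2 : H.src (e, xor s (sw e)) ∈ A
      · exact Or.inl ⟨_, h2⟩
      · exact Or.inr (hXz _ _ _ (Or.inr ⟨rfl, rfl⟩) h1 h2))
    have hvA : ∀ w : V × Bool, w.1 ≠ z₁.1 → w ∈ A ∨ inv w ∈ A := by
      intro w hw
      obtain ⟨s, hs⟩ := hUv w.1 hw
      rcases eq_or_eq_inv (x := (w.1, s)) (y := w) rfl with h3 | h3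
      · exact Or.inl (h3 ▸ hs)
      · exact Or.inr (h3 ▸ hs)
    have hedge : ∀ y u v, Ends y u v → u.1 = z₁.1 → v.1 = z₁.1 → False := by
      intro y u v h1 hu hv
      have h2 : (H.src y).1 = z₁.1 ∧ (H.tgt y).1 = z₁.1 := by
        rcases h1 with ⟨rfl, rfl⟩ | ⟨rfl, rfl⟩
        · exact ⟨hu, hv⟩
        · exact ⟨hv, hu⟩
      rcases hUe y.1 with h3 | h3
      · exact hzU (h2.1 ▸ h3)
      · exact hzU (h2.2 ▸ h3)
    refine ⟨(A : Set (V × Bool)) ∪ {inv z₁}, x₁, ?_, ?_, ?_⟩
    · intro w
      simp only [Set.mem_union, Finset.mem_coe, Set.mem_singleton_iff]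
      by_cases hw : w.1 = z₁.1
      · rcases eq_or_eq_inv hw with rfl | rfl
        · constructor
          · rintro (h | h)
            · exact absurd h hz₁
            · exact absurd h.symm (inv_ne w)
          · intro h
            exact absurd (Or.inr rfl) h
        · rw [inv_inv]
          constructor
          · intro _
            rintro (h | h)
            · exact hz₁ h
            · exact inv_ne z₁ h.symm
          · intro _
            exact Or.inr rfl
      · have hw1 : w ≠ inv z₁ := fun h => hw (by rw [h]; rfl)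
        have hw2 : inv w ≠ inv z₁ := fun h => hw (by rw [inv_inj h])
        rcases hvA w hw with h | h
        · exact ⟨fun _ => by
            rintro (h1 | h1)
            · exact hdisj w h h1
            · exact hw2 h1, fun _ => Or.inl h⟩
        · constructor
          · rintro (h1 | h1)
            · exact absurd h (hdisj w h1)
            · exact absurd h1 hw1
          · intro h1
            exact absurd (Or.inl h) h1
    · rw [hcross]
      refine ⟨u₁, z₁, hE₁, Or.inl (by simpa using hu₁), ?_⟩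
      rintro (h | h)
      · exact hz₁ (by simpa using h)
      · exact inv_ne z₁ (by simpa using h.symm)
    · intro y hy
      rw [hcross] at hy
      obtain ⟨u, v, h1, h2, h3⟩ := hy
      have hvS : v ∉ A ∧ v ≠ inv z₁ := by
        constructor
        · intro h
          exact h3 (Or.inl (by simpa using h))
        · intro h
          exact h3 (Or.inr (by simpa using h))
      by_cases hu : u ∈ A
      · rcases hXx y (E1 y u v h1 hu hvS.1) with h4 | h4
        · exact Or.inl h4
        · rw [h4] at h1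
          exact absurd (hX' u v h1 hu) hvS.2
      · have huz : u = inv z₁ := by
          rcases h2 with h4 | h4
          · exact absurd (by simpa using h4) hu
          · simpa using h4
        have hvz : v.1 ≠ z₁.1 := fun h4 => hedge y u v h1 (by rw [huz]; rfl) h4
        have hiv : inv v ∈ A := by
          rcases hvA v hvz with h4 | h4
          · exact absurd h4 hvS.1
          · exact h4
        have h5 : Ends (inv y) (inv v) z₁ := by
          have h6 := (E3 y u v h1).symm
          rw [huz, inv_inv] at h6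
          exact h6
        right
        rcases hXx (inv y) (E1 _ _ _ h5 hiv hz₁) with h6 | h6
        · rw [← h6, inv_inv]
        · rw [h6] at h5
          exact absurd (hX' _ _ h5 hiv).symm (inv_ne z₁)

end core

end Pool.Agent.H53.AP
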