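import Mathlib
import Pool.Agent.H53.AP.Core

/-! Subdivision of an edge. -/

set_option autoImplicit false
set_option linter.unusedSectionVars false
set_option linter.unusedSimpArgs false

namespace Pool.Agent.H53.AP

open MetricGraph

variable {V E : Type}

/-- connectedness of the cover and 2-connectedness of the base in terms of closed sets -/
structure Good (G : MetricGraph V E) (sw : E → Bool) : Prop where
  conn : ∀ S : Set (V × Bool), S.Nonempty →
    (∀ x, (G.cover sw).src x ∈ S ↔ (G.cover sw).tgt x ∈ S) → ∀ w, w ∈ S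
  br : ∀ (e : E) (U : Set V), U.Nonempty → (∀ e', e' ≠ e → (G.src e' ∈ U ↔ G.tgt e' ∈ U)) →
    ∀ v, v ∈ U
  cut : ∀ (z : V) (U : Set V) (F : Set E), z ∉ U → (U.Nonempty ∨ F.Nonempty) →
    (∀ e ∈ F, (G.src e ∈ U ∨ G.src e = z) ∧ (G.tgt e ∈ U ∨ G.tgt e = z)) →
    (∀ e, G.src e ∈ U ∨ G.tgt e ∈ U → e ∈ F) → (∀ v, v ≠ z → v ∈ U) ∧ ∀ e, e ∈ F

variable [DecidableEq E] (G : MetricGraph V E) (sw : E → Bool) (e₀ : E) (t₀ : ℝ)

/-- the edge `e₀` is subdivided at distance `t₀` from its starting point -/
def sub (h : 0 < t₀ ∧ t₀ < G.len e₀) : MetricGraph (Option V) (Option E) where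
  src
    | none => none
    | some e => some (G.src e)
  tgt
    | none => some (G.tgt e₀)
    | some e => if e = e₀ then none else some (G.tgt e)
  len
    | none => G.len e₀ - t₀
    | some e => if e = e₀ then t₀ else G.len e
  len_pos
    | none => sub_pos.2 h.2
    | some e => by
        show 0 < if e = e₀ then t₀ else G.len e
        split_ifs
        · exact h.1
        · exact G.len_pos e

/-- the switches of the subdivided graph -/
def subSw : Option E → Bool
  | none => sw e₀
  | some e => if e = e₀ then false else sw e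

variable {G sw e₀ t₀} {h : 0 < t₀ ∧ t₀ < G.len e₀}

lemma Good.sub (hG : Good G sw) : Good (sub G e₀ t₀ h) (subSw sw e₀) := by
  refine ⟨?_, ?_, ?_⟩
  · intro S hS hcl
    have h1 : ∀ s, ((some (G.src e₀), s) : Option V × Bool) ∈ S ↔ (none, s) ∈ S := by
      intro s
      have := hcl (some e₀, s)
      simpa [MetricGraph.cover, AP.sub, subSw] using this
    have h2 : ∀ s, ((none, s) : Option V × Bool) ∈ S ↔ (some (G.tgt e₀), xor s (sw e₀)) ∈ S := by
      intro s
      have := hcl (none, s)
      simpa [MetricGraph.cover, AP.sub, subSw] using this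
    have h3 : ∀ e s, e ≠ e₀ → (((some (G.src e), s) : Option V × Bool) ∈ S ↔
        (some (G.tgt e), xor s (sw e)) ∈ S) := by
      intro e s he
      have := hcl (some e, s)
      simpa [MetricGraph.cover, AP.sub, subSw, he] using this
    have hne : ∃ w : V × Bool, ((some w.1, w.2) : Option V × Bool) ∈ S := by
      obtain ⟨⟨v, s⟩, hv⟩ := hS
      cases v with
      | none => exact ⟨(G.src e₀, s), (h1 s).2 hv⟩
      | some v => exact ⟨(v, s), hv⟩
    have hall := hG.conn {w | ((some w.1, w.2) : Option V × Bool) ∈ S} hne (by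
      rintro ⟨e, s⟩
      by_cases he : e = e₀
      · subst he
        exact (h1 s).trans (h2 s)
      · exact h3 e s he)
    rintro ⟨v, s⟩
    cases v with
    | none => exact (h1 s).1 (hall (G.src e₀, s))
    | some v => exact hall (v, s)
  · intro e' U hU hcl
    have hclE : ∀ e, e ≠ e₀ → (some e : Option E) ≠ e' →
        ((some (G.src e) : Option V) ∈ U ↔ some (G.tgt e) ∈ U) := by
      intro e he hne
      have := hcl (some e) hne
      simpa [AP.sub, he] using this
    have h1 : (some e₀ : Option E) ≠ e' → ((some (G.src e₀) : Option V) ∈ U ↔ none ∈ U) := by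
      intro hne
      have := hcl (some e₀) hne
      simpa [AP.sub] using this
    have h2 : (none : Option E) ≠ e' → ((none : Option V) ∈ U ↔ some (G.tgt e₀) ∈ U) := by
      intro hne
      have := hcl none hne
      simpa [AP.sub] using this
    have hfin : ∀ e, (∀ e₁, e₁ ≠ e → ((some (G.src e₁) : Option V) ∈ U ↔ some (G.tgt e₁) ∈ U)) →
        (∃ v : V, (some v : Option V) ∈ U) → ∀ v : V, (some v : Option V) ∈ U := by
      intro e h3 h4
      exact hG.br e {v | (some v : Option V) ∈ U} h4 h3
    have hnone : (none : Option V) ∈ U → ∃ v : V, (some v : Option V) ∈ U := by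
      intro hn
      by_cases h3 : (some e₀ : Option E) = e'
      · exact ⟨_, (h2 (by rw [← h3]; simp)).1 hn⟩
      · exact ⟨_, (h1 h3).2 hn⟩
    have hex : ∃ v : V, (some v : Option V) ∈ U := by
      obtain ⟨v, hv⟩ := hU
      cases v with
      | none => exact hnone hv
      | some v => exact ⟨v, hv⟩
    have hall : ∀ v : V, (some v : Option V) ∈ U := by
      cases e' with
      | none =>
        refine hfin e₀ (fun e₁ he₁ => hclE e₁ he₁ (by simp)) hex
      | some e' =>
        by_cases he : e' = e₀
        · subst he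
          exact hfin e' (fun e₁ he₁ => hclE e₁ he₁ (by simpa using he₁)) hex
        · refine hfin e' (fun e₁ he₁ => ?_) hex
          by_cases h3 : e₁ = e₀
          · subst h3
            exact (h1 (by simpa using he₁)).trans (h2 (by simp))
          · exact hclE e₁ h3 (by simpa using he₁)
    intro v
    cases v with
    | none =>
      by_cases h3 : (some e₀ : Option E) = e'
      · exact (h2 (by rw [← h3]; simp)).2 (hall _)
      · exact (h1 h3).1 (hall _)
    | some v => exact hall v
  · intro z' U F hz hne hF hUF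
    have hFe : ∀ e, e ≠ e₀ → (some e : Option E) ∈ F →
        ((some (G.src e) : Option V) ∈ U ∨ some (G.src e) = z') ∧
        ((some (G.tgt e) : Option V) ∈ U ∨ some (G.tgt e) = z') := by
      intro e he hmem
      have := hF _ hmem
      simpa [AP.sub, he] using this
    have hF0 : (some e₀ : Option E) ∈ F →
        ((some (G.src e₀) : Option V) ∈ U ∨ some (G.src e₀) = z') ∧
        ((none : Option V) ∈ U ∨ none = z') := by
      intro hmem
      have := hF _ hmem
      simpa [AP.sub] using this
    have hF1 : (none : Option E) ∈ F → ((none : Option V) ∈ U ∨ none = z') ∧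
        ((some (G.tgt e₀) : Option V) ∈ U ∨ some (G.tgt e₀) = z') := by
      intro hmem
      have := hF _ hmem
      simpa [AP.sub] using this
    have hUe : ∀ e, e ≠ e₀ → ((some (G.src e) : Option V) ∈ U ∨ some (G.tgt e) ∈ U) →
        (some e : Option E) ∈ F := by
      intro e he hor
      exact hUF (some e) (by simpa [AP.sub, he] using hor)
    have hU0 : ((some (G.src e₀) : Option V) ∈ U ∨ none ∈ U) → (some e₀ : Option E) ∈ F := by
      intro hor
      exact hUF (some e₀) (by simpa [AP.sub] using hor)
    have hU1 : ((none : Option V) ∈ U ∨ some (G.tgt e₀) ∈ U) → (none : Option E) ∈ F := by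
      intro hor
      exact hUF none (by simpa [AP.sub] using hor)
    cases z' with
    | none =>
      -- the new vertex is removed
      have hex : ∃ v : V, (some v : Option V) ∈ U := by
        have hFx : ∀ e' ∈ F, ∃ v : V, (some v : Option V) ∈ U := by
          intro e' he'
          cases e' with
          | none =>
            rcases (hF1 he').2 with h3 | h3
            · exact ⟨_, h3⟩
            · simp at h3
          | some e =>
            by_cases he : e = e₀
            · subst he
              rcases (hF0 he').1 with h3 | h3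
              · exact ⟨_, h3⟩
              · simp at h3
            · rcases (hFe e he he').1 with h3 | h3
              · exact ⟨_, h3⟩
              · simp at h3
        rcases hne with ⟨v, hv⟩ | ⟨e', he'⟩
        · cases v with
          | none => exact absurd hv hz
          | some v => exact ⟨v, hv⟩
        · exact hFx e' he'
      have hall := hG.br e₀ {v | (some v : Option V) ∈ U} hex (by
        intro e he
        have h3 : (some e : Option E) ∈ F → (some (G.src e) : Option V) ∈ U ∧
            (some (G.tgt e) : Option V) ∈ U := by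
          intro hm
          have := hFe e he hm
          simpa using this
        exact ⟨fun h4 => (h3 (hUe e he (Or.inl h4))).2, fun h4 => (h3 (hUe e he (Or.inr h4))).1⟩)
      refine ⟨fun v hv => ?_, fun e' => ?_⟩
      · cases v with
        | none => exact absurd rfl hv
        | some v => exact hall v
      · cases e' with
        | none => exact hU1 (Or.inr (hall _))
        | some e =>
          by_cases he : e = e₀
          · subst he
            exact hU0 (Or.inl (hall _))
          · exact hUe e he (Or.inl (hall _))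
    | some z =>
      have hn1 : (some e₀ : Option E) ∈ F → (none : Option V) ∈ U := by
        intro hm
        rcases (hF0 hm).2 with h3 | h3
        · exact h3
        · simp at h3
      have hn2 : (none : Option E) ∈ F → (none : Option V) ∈ U := by
        intro hm
        rcases (hF1 hm).1 with h3 | h3
        · exact h3
        · simp at h3
      obtain ⟨hv, he⟩ := hG.cut z {v | (some v : Option V) ∈ U} {e | (some e : Option E) ∈ F} hz (by
        rcases hne with ⟨v, hv⟩ | ⟨e', he'⟩
        · cases v with
          | none => exact Or.inr ⟨e₀, hU0 (Or.inr hv)⟩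
          | some v => exact Or.inl ⟨v, hv⟩
        · cases e' with
          | none => exact Or.inr ⟨e₀, hU0 (Or.inr (hn2 he'))⟩
          | some e => exact Or.inr ⟨e, he'⟩) (by
        intro e hm
        by_cases he : e = e₀
        · subst he
          have h3 := (hF0 hm).1
          have h4 := (hF1 (hU1 (Or.inl (hn1 hm)))).2
          simp only [Option.some.injEq] at h3 h4
          exact ⟨h3, h4⟩
        · have := hFe e he hm
          simp only [Option.some.injEq] at this
          exact this) (by
        intro e hor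
        by_cases he : e = e₀
        · subst he
          rcases hor with h3 | h3
          · exact hU0 (Or.inl h3)
          · exact hU0 (Or.inr (hn2 (hU1 (Or.inr h3))))
        · exact hUe e he hor)
      refine ⟨fun v hvz => ?_, fun e' => ?_⟩
      · cases v with
        | none => exact hn1 (he e₀)
        | some v => exact hv v (fun h3 => hvz (by rw [h3]))
      · cases e' with
        | none => exact hU1 (Or.inl (hn1 (he e₀)))
        | some e => exact he e

/-- the map of the points of the cover of the subdivided graph -/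
noncomputable def ptMap (h : 0 < t₀ ∧ t₀ < G.len e₀) :
    ((sub G e₀ t₀ h).cover (subSw sw e₀)).Point → (G.cover sw).Point
  | Sum.inl (none, s) => Sum.inr ⟨((e₀, s), t₀), h⟩
  | Sum.inl (some v, s) => Sum.inl (v, s)
  | Sum.inr ⟨((none, s), t), ht⟩ => Sum.inr ⟨((e₀, s), t + t₀), by
      have h1 : 0 < t := ht.1
      have h2 : t < G.len e₀ - t₀ := ht.2
      constructor
      · exact add_pos h1 h.1
      · show t + t₀ < G.len e₀
        linarith⟩
  | Sum.inr ⟨((some e, s), t), ht⟩ => Sum.inr ⟨((e, s), t), by
      have h1 : 0 < t := ht.1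
      have h2 : t < if e = e₀ then t₀ else G.len e := ht.2
      refine ⟨h1, ?_⟩
      show t < G.len e
      split_ifs at h2 with he
      · rw [he]
        exact h2.trans h.2
      · exact h2⟩

lemma ptMap_swap (x : ((sub G e₀ t₀ h).cover (subSw sw e₀)).Point) :
    ptMap h (swap x) = swap (ptMap h x) := by
  rcases x with ⟨(_ | v), s⟩ | ⟨⟨⟨(_ | e), s⟩, t⟩, ht⟩ <;> rfl

lemma ptMap_surj (x : (G.cover sw).Point) :
    ∃ x' : ((sub G e₀ t₀ h).cover (subSw sw e₀)).Point, ptMap h x' = x := by
  rcases x with ⟨v, s⟩ | ⟨⟨⟨e, s⟩, t⟩, ht⟩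
  · exact ⟨Sum.inl (some v, s), rfl⟩
  · have h1 : 0 < t := ht.1
    have h2 : t < G.len e := ht.2
    by_cases he : e = e₀
    · subst he
      rcases lt_trichotomy t t₀ with h3 | h3 | h3
      · refine ⟨Sum.inr ⟨((some e, s), t), h1, ?_⟩, rfl⟩
        show t < if e = e then t₀ else G.len e
        rw [if_pos rfl]
        exact h3
      · subst h3
        exact ⟨Sum.inl (none, s), rfl⟩
      · refine ⟨Sum.inr ⟨((none, s), t - t₀), sub_pos.2 h3, ?_⟩, ?_⟩
        · show t - t₀ < G.len e - t₀
          linarith
        · simp only [ptMap, sub_add_cancel]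
    · refine ⟨Sum.inr ⟨((some e, s), t), h1, ?_⟩, rfl⟩
      show t < if e = e₀ then t₀ else G.len e
      rw [if_neg he]
      exact h2

section principal

variable [Fintype V] [Fintype E] [DecidableEq V]

lemma mapDomain_eval {A B : Type} [DecidableEq B] (φ : A → B) (D : A →₀ ℤ) (y : B) :
    (Finsupp.mapDomain φ D) y = D.sum fun x c => if φ x = y then c else 0 := by
  rw [Finsupp.mapDomain, Finsupp.sum_apply]
  refine Finsupp.sum_congr fun x _ => ?_
  rw [Finsupp.single_apply]

lemma eval_eq {A : Type} [DecidableEq A] (D : A →₀ ℤ) (y : A) :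
    D y = D.sum fun x c => if x = y then c else 0 := by
  conv_lhs => rw [← Finsupp.mapDomain_id (v := D)]
  rw [mapDomain_eval]
  rfl

/-- weighted sums -/
lemma sum_map {A B : Type} {M : Type} [AddCommGroup M] (φ : A → B) (D : A →₀ ℤ) (w : B → M) :
    (Finsupp.mapDomain φ D).sum (fun x c => c • w x) = D.sum fun x c => c • w (φ x) := by
  rw [Finsupp.sum_mapDomain_index]
  · intro b
    exact zero_smul _ _
  · intro b m₁ m₂
    exact add_smul _ _ _

lemma sum_add' {A : Type} {M : Type} [AddCommGroup M] (D : A →₀ ℤ) (w w' : A → M) :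
    (D.sum fun x c => c • (w x + w' x)) = (D.sum fun x c => c • w x) + D.sum fun x c => c • w' x := by
  simp only [smul_add]
  exact Finsupp.sum_add

lemma sum_congr' {A : Type} {M : Type} [AddCommGroup M] (D : A →₀ ℤ) {w w' : A → M}
    (h : ∀ x, w x = w' x) : (D.sum fun x c => c • w x) = D.sum fun x c => c • w' x := by
  have : w = w' := funext h
  rw [this]

variable (h)

/-- `1` at the new vertex in the sheet `s` -/
noncomputable def atMid (s : Bool) : ((sub G e₀ t₀ h).cover (subSw sw e₀)).Point → ℤ
  | Sum.inl (none, s') => if s' = s then 1 else 0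
  | _ => 0

omit [Fintype V] [Fintype E] [DecidableEq V] in
lemma onEdge_inl {V E : Type} (G : MetricGraph V E) (e : E) (v : V) : G.onEdge e (Sum.inl v) = 0 := rfl

lemma onEdge_inr {V E : Type} [DecidableEq E] (G : MetricGraph V E) (e : E)
    (x : {x : E × ℝ // 0 < x.2 ∧ x.2 < G.len x.1}) :
    G.onEdge e (Sum.inr x) = if x.1.1 = e then 1 else 0 := by
  unfold MetricGraph.onEdge
  by_cases hx : x.1.1 = e <;> simp [hx]

lemma rest_inl {V E : Type} (G : MetricGraph V E) (e : E) (v : V) : G.rest e (Sum.inl v) = 0 := rfl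

lemma rest_inr {V E : Type} [DecidableEq E] (G : MetricGraph V E) (e : E)
    (x : {x : E × ℝ // 0 < x.2 ∧ x.2 < G.len x.1}) :
    G.rest e (Sum.inr x) = if x.1.1 = e then G.len e - x.1.2 else 0 := by
  unfold MetricGraph.rest
  by_cases hx : x.1.1 = e <;> simp [hx]

lemma onEdge_other {e : E} (he : e ≠ e₀) (s : Bool)
    (x : ((sub G e₀ t₀ h).cover (subSw sw e₀)).Point) :
    (G.cover sw).onEdge (e, s) (ptMap h x) =
      ((sub G e₀ t₀ h).cover (subSw sw e₀)).onEdge (some e, s) x := by
  rcases x with ⟨(_ | v), s'⟩ | ⟨⟨⟨(_ | e'), s'⟩, t⟩, ht⟩ <;>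
    simp [ptMap, onEdge_inr, onEdge_inl, Ne.symm he]

lemma rest_other {e : E} (he : e ≠ e₀) (s : Bool)
    (x : ((sub G e₀ t₀ h).cover (subSw sw e₀)).Point) :
    (G.cover sw).rest (e, s) (ptMap h x) =
      ((sub G e₀ t₀ h).cover (subSw sw e₀)).rest (some e, s) x := by
  rcases x with ⟨(_ | v), s'⟩ | ⟨⟨⟨(_ | e'), s'⟩, t⟩, ht⟩ <;>
    simp [ptMap, rest_inr, rest_inl, Ne.symm he, he, MetricGraph.cover, AP.sub]

lemma onEdge_mid (s : Bool) (x : ((sub G e₀ t₀ h).cover (subSw sw e₀)).Point) :
    (G.cover sw).onEdge (e₀, s) (ptMap h x) =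
      ((sub G e₀ t₀ h).cover (subSw sw e₀)).onEdge (some e₀, s) x +
      (((sub G e₀ t₀ h).cover (subSw sw e₀)).onEdge (none, s) x + atMid h s x) := by
  rcases x with ⟨(_ | v), s'⟩ | ⟨⟨⟨(_ | e'), s'⟩, t⟩, ht⟩ <;>
    simp [ptMap, onEdge_inr, onEdge_inl, atMid]

lemma rest_mid (s : Bool) (x : ((sub G e₀ t₀ h).cover (subSw sw e₀)).Point) :
    (G.cover sw).rest (e₀, s) (ptMap h x) =
      ((sub G e₀ t₀ h).cover (subSw sw e₀)).rest (some e₀, s) x +
      (((sub G e₀ t₀ h).cover (subSw sw e₀)).rest (none, s) x +
        ((((sub G e₀ t₀ h).cover (subSw sw e₀)).onEdge (some e₀, s) x + atMid h s x : ℤ) : ℝ) *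
          (G.len e₀ - t₀)) := by
  rcases x with ⟨(_ | v), s'⟩ | ⟨⟨⟨(_ | e'), s'⟩, t⟩, ht⟩
  · by_cases hs : s' = s <;>
    simp [ptMap, onEdge_inr, onEdge_inl, rest_inr, rest_inl, atMid, MetricGraph.cover, AP.sub, hs]
  · simp [ptMap, onEdge_inr, onEdge_inl, rest_inr, rest_inl, atMid]
  · by_cases hs : s' = s
    · simp [ptMap, onEdge_inr, onEdge_inl, rest_inr, rest_inl, atMid, MetricGraph.cover, AP.sub, hs]
      ring
    · simp [ptMap, onEdge_inr, onEdge_inl, rest_inr, rest_inl, atMid, MetricGraph.cover, AP.sub, hs]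
  · by_cases hs : s' = s <;> by_cases he : e' = e₀ <;>
    simp [ptMap, onEdge_inr, onEdge_inl, rest_inr, rest_inl, atMid, MetricGraph.cover, AP.sub, hs, he]

lemma sum_src_some (v : V) (s' : Bool) (a' : Option E × Bool → ℤ) :
    (∑ x, if ((sub G e₀ t₀ h).cover (subSw sw e₀)).src x = (some v, s') then a' x else 0) =
      ∑ x, if (G.cover sw).src x = (v, s') then a' (some x.1, x.2) else 0 := by
  rw [Fintype.sum_prod_type, Fintype.sum_option, Fintype.sum_prod_type]
  rw [Finset.sum_eq_zero, zero_add]
  · refine Finset.sum_congr rfl fun e _ => Finset.sum_congr rfl fun s _ => ?_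
    simp [MetricGraph.cover, AP.sub]
  · intro s _
    simp [MetricGraph.cover, AP.sub]

lemma sum_src_none (s' : Bool) (a' : Option E × Bool → ℤ) :
    (∑ x, if ((sub G e₀ t₀ h).cover (subSw sw e₀)).src x = (none, s') then a' x else 0) =
      a' (none, s') := by
  rw [Fintype.sum_prod_type, Fintype.sum_option]
  have h1 : ∀ e : E, ∑ s, (if ((sub G e₀ t₀ h).cover (subSw sw e₀)).src (some e, s) = (none, s')
      then a' (some e, s) else 0) = 0 := by
    intro e
    refine Finset.sum_eq_zero fun s _ => ?_
    simp [MetricGraph.cover, AP.sub]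
  rw [Finset.sum_congr rfl fun e _ => h1 e, Finset.sum_const_zero, add_zero,
    Finset.sum_eq_single s']
  · simp [MetricGraph.cover, AP.sub]
  · intro s _ hs
    simp [MetricGraph.cover, AP.sub, hs]
  · simp

lemma sum_tgt_some (v : V) (s' : Bool) (b' : Option E × Bool → ℤ) :
    (∑ x, if ((sub G e₀ t₀ h).cover (subSw sw e₀)).tgt x = (some v, s') then b' x else 0) =
      ∑ x, if (G.cover sw).tgt x = (v, s') then
        (if x.1 = e₀ then b' (none, x.2) else b' (some x.1, x.2)) else 0 := by
  rw [Fintype.sum_prod_type, Fintype.sum_option, Fintype.sum_prod_type]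
  have h1 : ∀ e : E, ∑ s, (if ((sub G e₀ t₀ h).cover (subSw sw e₀)).tgt (some e, s) = (some v, s')
      then b' (some e, s) else 0) = if e = e₀ then 0 else
        ∑ s, (if (G.cover sw).tgt (e, s) = (v, s') then b' (some e, s) else 0) := by
    intro e
    by_cases he : e = e₀
    · rw [if_pos he]
      refine Finset.sum_eq_zero fun s _ => ?_
      simp [MetricGraph.cover, AP.sub, he]
    · rw [if_neg he]
      refine Finset.sum_congr rfl fun s _ => ?_
      simp [MetricGraph.cover, AP.sub, subSw, he]
  have h2 : ∀ e : E, ∑ s, (if (G.cover sw).tgt (e, s) = (v, s') then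
        (if e = e₀ then b' (none, s) else b' (some e, s)) else 0) =
      (if e = e₀ then ∑ s, (if (G.cover sw).tgt (e₀, s) = (v, s') then b' (none, s) else 0) else 0) +
      if e = e₀ then 0 else
        ∑ s, (if (G.cover sw).tgt (e, s) = (v, s') then b' (some e, s) else 0) := by
    intro e
    by_cases he : e = e₀
    · subst he
      simp
    · simp [he]
  rw [Finset.sum_congr rfl fun e _ => h1 e, Finset.sum_congr rfl fun e _ => h2 e,
    Finset.sum_add_distrib]
  congr 1
  rw [Finset.sum_ite_eq']
  simp only [Finset.mem_univ, if_true]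
  refine Finset.sum_congr rfl fun s _ => ?_
  simp [MetricGraph.cover, AP.sub, subSw]

lemma sum_tgt_none (s' : Bool) (b' : Option E × Bool → ℤ) :
    (∑ x, if ((sub G e₀ t₀ h).cover (subSw sw e₀)).tgt x = (none, s') then b' x else 0) =
      b' (some e₀, s') := by
  rw [Fintype.sum_prod_type, Fintype.sum_option]
  have h1 : ∑ s, (if ((sub G e₀ t₀ h).cover (subSw sw e₀)).tgt (none, s) = (none, s')
      then b' (none, s) else 0) = 0 := by
    refine Finset.sum_eq_zero fun s _ => ?_
    simp [MetricGraph.cover, AP.sub]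
  rw [h1, zero_add, Finset.sum_eq_single e₀, Finset.sum_eq_single s']
  · simp [MetricGraph.cover, AP.sub, subSw]
  · intro s _ hs
    simp [MetricGraph.cover, AP.sub, subSw, hs]
  · simp
  · intro e _ he
    refine Finset.sum_eq_zero fun s _ => ?_
    simp [MetricGraph.cover, AP.sub, he]
  · simp

lemma sum_cast {A : Type} (D : A →₀ ℤ) (w : A → ℤ) (L : ℝ) :
    (D.sum fun x c => c • ((w x : ℝ) * L)) = ((D.sum fun x c => c • w x : ℤ) : ℝ) * L := by
  rw [Finsupp.sum, Finsupp.sum, Int.cast_sum, Finset.sum_mul]
  refine Finset.sum_congr rfl fun x _ => ?_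
  simp only [zsmul_eq_mul, Int.cast_mul, Int.cast_eq]
  ring

lemma isPrincipal_iff {V E : Type} [Fintype E] [inst : DecidableEq V] (H : MetricGraph V E)
    (D : H.Point →₀ ℤ) : H.IsPrincipal D ↔ ∃ (f : V → ℝ) (a : E → ℤ),
    (∀ e, f (H.tgt e) = f (H.src e) + a e * H.len e + D.sum fun x c => c • H.rest e x) ∧
    ∀ v, D (Sum.inl v) = (∑ e, if H.src e = v then a e else 0) -
      ∑ e, if H.tgt e = v then (a e + D.sum fun x c => c • H.onEdge e x) else 0 := by
  obtain rfl : inst = fun a b => Classical.propDecidable (a = b) := Subsingleton.elim _ _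
  exact Iff.rfl

theorem principal_iff (D : ((sub G e₀ t₀ h).cover (subSw sw e₀)).Point →₀ ℤ) :
    ((sub G e₀ t₀ h).cover (subSw sw e₀)).IsPrincipal D ↔
      (G.cover sw).IsPrincipal (Finsupp.mapDomain (ptMap h) D) := by
  rw [isPrincipal_iff, isPrincipal_iff]
  set R : E × Bool → ℝ := fun e => (Finsupp.mapDomain (ptMap h) D).sum fun x c => c • (G.cover sw).rest e x
    with hR
  set N : E × Bool → ℤ := fun e => (Finsupp.mapDomain (ptMap h) D).sum fun x c => c • (G.cover sw).onEdge e x
    with hN
  set R' : Option E × Bool → ℝ := fun e => D.sum fun x c => c • ((sub G e₀ t₀ h).cover (subSw sw e₀)).rest e x with hR'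
  set N' : Option E × Bool → ℤ := fun e => D.sum fun x c => c • ((sub G e₀ t₀ h).cover (subSw sw e₀)).onEdge e x with hN'
  set M : Bool → ℤ := fun s => D.sum fun x c => c • atMid h s x with hM
  have F1 : ∀ e s, e ≠ e₀ → R (e, s) = R' (some e, s) ∧ N (e, s) = N' (some e, s) := by
    intro e s he
    simp only [hR, hN, hR', hN']
    rw [sum_map, sum_map]
    exact ⟨sum_congr' D fun x => rest_other h he s x, sum_congr' D fun x => onEdge_other h he s x⟩
  have F2 : ∀ s, N (e₀, s) = N' (some e₀, s) + (N' (none, s) + M s) := by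
    intro s
    simp only [hN, hN', hM]
    rw [sum_map, sum_congr' D fun x => onEdge_mid h s x, sum_add', sum_add']
  have F3 : ∀ s, R (e₀, s) = R' (some e₀, s) + (R' (none, s) +
      ((N' (some e₀, s) + M s : ℤ) : ℝ) * (G.len e₀ - t₀)) := by
    intro s
    simp only [hR, hR', hN', hM]
    rw [sum_map, sum_congr' D fun x => rest_mid h s x, sum_add', sum_add', sum_cast, sum_add']
  have F4 : ∀ s, M s = D (Sum.inl (none, s)) := by
    intro s
    rw [eval_eq D]
    simp only [hM]
    refine Finsupp.sum_congr fun x _ => ?_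
    rcases x with ⟨(_ | v), s'⟩ | ⟨⟨⟨(_ | e'), s'⟩, t⟩, ht⟩ <;> simp [atMid]
  have F5 : ∀ v s, (Finsupp.mapDomain (ptMap h) D) (Sum.inl (v, s)) = D (Sum.inl (some v, s)) := by
    intro v s
    rw [eval_eq D, mapDomain_eval]
    refine Finsupp.sum_congr fun x _ => ?_
    rcases x with ⟨(_ | v), s'⟩ | ⟨⟨⟨(_ | e'), s'⟩, t⟩, ht⟩ <;> simp [ptMap]
  have L1 : ∀ s, ((sub G e₀ t₀ h).cover (subSw sw e₀)).len (some e₀, s) = t₀ := by
    intro s
    simp [MetricGraph.cover, AP.sub]
  have L2 : ∀ s, ((sub G e₀ t₀ h).cover (subSw sw e₀)).len (none, s) = G.len e₀ - t₀ := fun s => rfl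
  have L3 : ∀ e s, e ≠ e₀ → ((sub G e₀ t₀ h).cover (subSw sw e₀)).len (some e, s) = (G.cover sw).len (e, s) := by
    intro e s he
    simp [MetricGraph.cover, AP.sub, he]
  have T1 : ∀ s, ((sub G e₀ t₀ h).cover (subSw sw e₀)).tgt (some e₀, s) = (none, s) := by
    intro s
    simp [MetricGraph.cover, AP.sub, subSw]
  have T2 : ∀ s, ((sub G e₀ t₀ h).cover (subSw sw e₀)).tgt (none, s) = (some ((G.cover sw).tgt (e₀, s)).1, ((G.cover sw).tgt (e₀, s)).2) := fun s => rfl
  have T3 : ∀ e s, e ≠ e₀ → ((sub G e₀ t₀ h).cover (subSw sw e₀)).tgt (some e, s) = (some ((G.cover sw).tgt (e, s)).1, ((G.cover sw).tgt (e, s)).2) := by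
    intro e s he
    simp [MetricGraph.cover, AP.sub, subSw, he]
  have S1 : ∀ e s, ((sub G e₀ t₀ h).cover (subSw sw e₀)).src (some e, s) = (some ((G.cover sw).src (e, s)).1, ((G.cover sw).src (e, s)).2) := fun e s => rfl
  have S2 : ∀ s, ((sub G e₀ t₀ h).cover (subSw sw e₀)).src (none, s) = (none, s) := fun s => rfl
  constructor
  · rintro ⟨f', a', hf, hd⟩
    have hmid : ∀ s, a' (none, s) = a' (some e₀, s) + N' (some e₀, s) + M s := by
      intro s
      have h1 := hd (none, s)
      rw [← F4, sum_src_none, sum_tgt_none] at h1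
      simp only [hN'] at h1 ⊢
      omega
    refine ⟨fun w => f' (some w.1, w.2), fun e => a' (some e.1, e.2), ?_, ?_⟩
    · rintro ⟨e, s⟩
      by_cases he : e = e₀
      · subst he
        have h1 := hf (some e, s)
        have h2 := hf (none, s)
        rw [T1, S1, L1] at h1
        rw [T2, S2, L2] at h2
        change f' (some ((G.cover sw).tgt (e, s)).1, ((G.cover sw).tgt (e, s)).2) =
          f' (some ((G.cover sw).src (e, s)).1, ((G.cover sw).src (e, s)).2) + a' (some e, s) * G.len e + R (e, s)
        rw [h2, h1, F3, hmid]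
        simp only [hR']
        push_cast
        ring
      · have h1 := hf (some e, s)
        rw [T3 e s he, S1, L3 e s he] at h1
        change f' (some ((G.cover sw).tgt (e, s)).1, ((G.cover sw).tgt (e, s)).2) =
          f' (some ((G.cover sw).src (e, s)).1, ((G.cover sw).src (e, s)).2) + a' (some e, s) * (G.cover sw).len (e, s) + R (e, s)
        rw [h1, (F1 e s he).1]
    · rintro ⟨v, s⟩
      have h1 := hd (some v, s)
      rw [sum_src_some, sum_tgt_some] at h1
      rw [F5, h1]
      congr 1
      refine Finset.sum_congr rfl fun x _ => ?_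
      rcases x with ⟨e, s''⟩
      by_cases he : e = e₀
      · subst he
        simp only [if_true]
        congr 1
        have h2 := hmid s''
        have h3 := F2 s''
        simp only [hN', hN] at h2 h3 ⊢
        omega
      · simp only [if_neg he]
        congr 1
        have h3 := (F1 e s'' he).2
        simp only [hN', hN] at h3 ⊢
        omega
  · rintro ⟨f, a, hf, hd⟩
    set a' : Option E × Bool → ℤ := fun x => match x with
      | (none, s) => a (e₀, s) + N' (some e₀, s) + M s
      | (some e, s) => a (e, s) with ha'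
    set f' : Option V × Bool → ℝ := fun x => match x with
      | (none, s) => f (G.src e₀, s) + a (e₀, s) * t₀ + R' (some e₀, s)
      | (some v, s) => f (v, s) with hf'
    refine ⟨f', a', ?_, ?_⟩
    · rintro ⟨_ | e, s⟩
      · rw [T2, S2, L2]
        have h1 := hf (e₀, s)
        change f ((G.cover sw).tgt (e₀, s)) = (f (G.src e₀, s) + a (e₀, s) * t₀ + R' (some e₀, s)) +
          ((a (e₀, s) + N' (some e₀, s) + M s : ℤ) : ℝ) * (G.len e₀ - t₀) + R' (none, s)
        change f ((G.cover sw).tgt (e₀, s)) = f (G.src e₀, s) + a (e₀, s) * G.len e₀ + R (e₀, s) at h1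
        rw [h1, F3]
        push_cast
        ring
      · by_cases he : e = e₀
        · subst he
          rw [T1, S1, L1]
          rfl
        · rw [T3 e s he, S1, L3 e s he]
          have h1 := hf (e, s)
          change f ((G.cover sw).tgt (e, s)) = f ((G.cover sw).src (e, s)) + a (e, s) * (G.cover sw).len (e, s) + R' (some e, s)
          rw [← (F1 e s he).1]
          exact h1
    · rintro ⟨_ | v, s⟩
      · rw [← F4, sum_src_none, sum_tgt_none]
        simp only [ha', hN']
        ring
      · rw [sum_src_some, sum_tgt_some, ← F5, hd (v, s)]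
        congr 1
        refine Finset.sum_congr rfl fun x _ => ?_
        rcases x with ⟨e, s''⟩
        by_cases he : e = e₀
        · subst he
          simp only [if_true]
          congr 1
          have h3 := F2 s''
          simp only [hN', hN, ha'] at h3 ⊢
          omega
        · simp only [if_neg he]
          congr 1
          have h3 := (F1 e s'' he).2
          simp only [hN', hN, ha'] at h3 ⊢
          omega

end principal

end Pool.Agent.H53.AP
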