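import Mathlib
import Pool.Agent.H53.AP.Sub

/-! The Abel-Prym map over 2-connected graphs: the proof of the theorem. -/

set_option autoImplicit false
set_option linter.unusedSectionVars false
set_option linter.unusedSimpArgs false

namespace Pool.Agent.H53.AP

open MetricGraph

/-- some fibre of `Ψ₁` is infinite -/
def Bad {V E : Type} [Fintype E] (G : MetricGraph V E) (sw : E → Bool) : Prop :=
  ∃ y : (G.cover sw).Point, {x | SameClass x y}.Infinite

lemma inr_coord {V E : Type} {H : MetricGraph V (E × Bool)}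
    {x y : {x : (E × Bool) × ℝ // 0 < x.2 ∧ x.2 < H.len x.1}}
    (h : (Sum.inr x : H.Point) = Sum.inr y) :
    x.1.1.1 = y.1.1.1 ∧ x.1.1.2 = y.1.1.2 ∧ x.1.2 = y.1.2 := by
  have h1 : x = y := Sum.inr.inj h
  subst h1
  exact ⟨rfl, rfl, rfl⟩

section cutbad

variable {V E : Type} [Fintype V] [Fintype E] [DecidableEq V] [DecidableEq E]
  (G : MetricGraph V E) (sw : E → Bool)

lemma cut_sameClass {S : Set (V × Bool)} {e : E} {s : Bool} (hS : ∀ w, w ∈ S ↔ inv w ∉ S)
    (hx : (G.cover sw).src (e, s) ∈ S ↔ (G.cover sw).tgt (e, s) ∉ S)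
    (hall : ∀ x, ((G.cover sw).src x ∈ S ↔ (G.cover sw).tgt x ∉ S) →
      x = (e, s) ∨ x = inv (e, s))
    {t₁ t₂ : ℝ} (h₁ : 0 < t₁ ∧ t₁ < G.len e) (h₂ : 0 < t₂ ∧ t₂ < G.len e) :
    SameClass (G := G) (sw := sw) (Sum.inr ⟨((e, s), t₁), h₁⟩) (Sum.inr ⟨((e, s), t₂), h₂⟩) := by
  classical
  unfold SameClass
  rw [isPrincipal_iff]
  have hsum : ∀ {M : Type} [AddCommGroup M] (w : (G.cover sw).Point → M)
      (a b c d : (G.cover sw).Point),
      (((Finsupp.single a 1 - Finsupp.single b 1) - (Finsupp.single c 1 - Finsupp.single d 1) :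
        (G.cover sw).Point →₀ ℤ).sum fun x n => n • w x) = w a - w b - (w c - w d) := by
    intro M _ w a b c d
    have h0 : ∀ (a : (G.cover sw).Point) (m₁ m₂ : ℤ),
        (m₁ - m₂) • w a = m₁ • w a - m₂ • w a := fun a m₁ m₂ => sub_smul _ _ _
    rw [Finsupp.sum_sub_index (fun x m₁ m₂ => h0 x m₁ m₂),
      Finsupp.sum_sub_index (fun x m₁ m₂ => h0 x m₁ m₂),
      Finsupp.sum_sub_index (fun x m₁ m₂ => h0 x m₁ m₂)]
    simp [Finsupp.sum_single_index]
  have hneg : ∀ w, inv w ∈ S ↔ w ∉ S := by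
    intro w
    have := hS w
    tauto
  refine ⟨fun w => if (w ∈ S ↔ (G.cover sw).tgt (e, s) ∈ S) then t₂ - t₁ else 0, fun _ => 0, ?_, ?_⟩
  · intro x
    rw [hsum]
    simp only [swap, rest_inr]
    by_cases h1 : x = (e, s)
    · subst h1
      have h2 : ¬ ((G.cover sw).src (e, s) ∈ S ↔ (G.cover sw).tgt (e, s) ∈ S) := by tauto
      rw [if_pos Iff.rfl, if_neg h2]
      have h3 : ¬ (inv (e, s) = (e, s)) := inv_ne _
      simp only [if_neg h3, if_true]
      push_cast
      ring
    · by_cases h2 : x = inv (e, s)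
      · subst h2
        have h3 : ¬ ((e, s) = inv (e, s)) := (inv_ne _).symm
        rw [tgt_inv, src_inv]
        have h4 : ¬ (inv ((G.cover sw).tgt (e, s)) ∈ S ↔ (G.cover sw).tgt (e, s) ∈ S) := by
          rw [hneg]
          tauto
        have h5 : (inv ((G.cover sw).src (e, s)) ∈ S ↔ (G.cover sw).tgt (e, s) ∈ S) := by
          rw [hneg]
          tauto
        rw [if_neg h4, if_pos h5]
        simp only [if_neg h3, if_true]
        push_cast
        ring
      · have h3 : ¬ ((e, s) = x) := fun h => h1 h.symm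
        have h4 : ¬ (inv (e, s) = x) := fun h => h2 h.symm
        have h5 : ¬ ((G.cover sw).src x ∈ S ↔ (G.cover sw).tgt x ∉ S) := by
          intro h
          rcases hall x h with h | h
          · exact h1 h
          · exact h2 h
        have h6 : (((G.cover sw).tgt x ∈ S ↔ (G.cover sw).tgt (e, s) ∈ S) ↔
            ((G.cover sw).src x ∈ S ↔ (G.cover sw).tgt (e, s) ∈ S)) := by tauto
        simp only [if_neg h3, if_neg h4, h6]
        push_cast
        ring
  · intro v
    have h1 : ∀ x, (0 : ℤ) + ((Finsupp.single (Sum.inr ⟨((e, s), t₁), h₁⟩ : (G.cover sw).Point) 1 -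
        Finsupp.single (swap (Sum.inr ⟨((e, s), t₁), h₁⟩ : (G.cover sw).Point)) 1) -
        (Finsupp.single (Sum.inr ⟨((e, s), t₂), h₂⟩ : (G.cover sw).Point) 1 -
        Finsupp.single (swap (Sum.inr ⟨((e, s), t₂), h₂⟩ : (G.cover sw).Point)) 1) :
        (G.cover sw).Point →₀ ℤ).sum (fun y c => c • (G.cover sw).onEdge x y) = 0 := by
      intro x
      rw [hsum]
      simp only [swap, onEdge_inr]
      ring
    simp only [h1, ite_self, Finset.sum_const_zero, sub_zero]
    simp [swap]

/-- a cut of this kind gives an infinite fibre -/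
lemma cut_bad {S : Set (V × Bool)} {x₀ : E × Bool} (hS : ∀ w, w ∈ S ↔ inv w ∉ S)
    (hx : (G.cover sw).src x₀ ∈ S ↔ (G.cover sw).tgt x₀ ∉ S)
    (hall : ∀ x, ((G.cover sw).src x ∈ S ↔ (G.cover sw).tgt x ∉ S) → x = x₀ ∨ x = inv x₀) :
    Bad G sw := by
  obtain ⟨e, s⟩ := x₀
  have hl := G.len_pos e
  have h₂ : 0 < G.len e / 2 ∧ G.len e / 2 < G.len e := ⟨by linarith, by linarith⟩
  refine ⟨Sum.inr ⟨((e, s), G.len e / 2), h₂⟩, ?_⟩
  have hinf : (Set.Ioo 0 (G.len e)).Infinite := Set.Ioo_infinite hl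
  have : Infinite (Set.Ioo 0 (G.len e)) := hinf.to_subtype
  refine Set.infinite_of_injective_forall_mem (α := Set.Ioo 0 (G.len e))
    (f := fun t => (Sum.inr ⟨((e, s), t.1), t.2⟩ : (G.cover sw).Point)) ?_ ?_
  · intro t t' htt
    have h1 := (inr_coord htt).2.2
    exact Subtype.ext h1
  · intro t
    exact cut_sameClass G sw hS hx hall t.2 h₂

/-- the case of two vertices of the model -/
lemma vertex_case (hG : Good G sw) {p q : V × Bool}
    (h : SameClass (G := G) (sw := sw) (Sum.inl p) (Sum.inl q)) (hpq : p ≠ q) : Bad G sw := by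
  unfold SameClass at h
  rw [isPrincipal_iff] at h
  obtain ⟨f, a, hf, hd⟩ := h
  have hsum : ∀ {M : Type} [AddCommGroup M] (w : (G.cover sw).Point → M)
      (a b c d : (G.cover sw).Point),
      (((Finsupp.single a 1 - Finsupp.single b 1) - (Finsupp.single c 1 - Finsupp.single d 1) :
        (G.cover sw).Point →₀ ℤ).sum fun x n => n • w x) = w a - w b - (w c - w d) := by
    intro M _ w a b c d
    have h0 : ∀ (a : (G.cover sw).Point) (m₁ m₂ : ℤ),
        (m₁ - m₂) • w a = m₁ • w a - m₂ • w a := fun a m₁ m₂ => sub_smul _ _ _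
    rw [Finsupp.sum_sub_index (fun x m₁ m₂ => h0 x m₁ m₂),
      Finsupp.sum_sub_index (fun x m₁ m₂ => h0 x m₁ m₂),
      Finsupp.sum_sub_index (fun x m₁ m₂ => h0 x m₁ m₂)]
    simp [Finsupp.sum_single_index]
  simp only [swap] at hf hd
  simp only [hsum, rest_inl, onEdge_inl] at hf hd
  obtain ⟨S, x₀, h1, h2, h3⟩ := core G sw hG.conn hG.br hG.cut (f₀ := fun w => - f w)
    (a := fun x => - a x) (p := p) (q := q) (by
      intro x
      have := hf x
      push_cast
      simp only [sub_self, add_zero] at this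
      rw [this]
      ring) (by
      intro w
      have h4 := hd w
      simp only [sub_self, add_zero] at h4
      have h5 : ∀ t : E × Bool → V × Bool, (∑ x, if t x = w then - a x else 0) =
          - ∑ x, if t x = w then a x else 0 := by
        intro t
        rw [← Finset.sum_neg_distrib]
        refine Finset.sum_congr rfl fun x _ => ?_
        split_ifs <;> simp
      rw [h5, h5]
      have h6 : pryD p q w = ((Finsupp.single (Sum.inl p : (G.cover sw).Point) 1 -
          Finsupp.single (Sum.inl (inv p) : (G.cover sw).Point) 1) -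
          (Finsupp.single (Sum.inl q : (G.cover sw).Point) 1 -
          Finsupp.single (Sum.inl (inv q) : (G.cover sw).Point) 1) :
          (G.cover sw).Point →₀ ℤ) (Sum.inl w) := by
        unfold pryD
        have h7 : ∀ u : V × Bool, (Finsupp.single (Sum.inl u : (G.cover sw).Point) (1 : ℤ))
            (Sum.inl w) = if w = u then 1 else 0 := by
          intro u
          rw [Finsupp.single_apply]
          by_cases hu : w = u
          · subst hu
            simp
          · rw [if_neg hu, if_neg]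
            intro h8
            exact hu (Sum.inl.inj h8).symm
        simp only [Finsupp.sub_apply]
        rw [h7, h7, h7, h7]
        ring
      rw [h6, h4]
      ring) hpq
  exact cut_bad G sw h1 h2 h3

end cutbad

section transfer

variable {V E : Type} [Fintype V] [Fintype E] [DecidableEq V] [DecidableEq E]
  {G : MetricGraph V E} {sw : E → Bool} {e₀ : E} {t₀ : ℝ} (h : 0 < t₀ ∧ t₀ < G.len e₀)

lemma sameClass_iff (x y : ((sub G e₀ t₀ h).cover (subSw sw e₀)).Point) :
    SameClass x y ↔ SameClass (ptMap h x) (ptMap h y) := by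
  unfold SameClass
  rw [principal_iff]
  have h1 : Finsupp.mapDomain (ptMap h) ((Finsupp.single x 1 - Finsupp.single (swap x) 1) -
      (Finsupp.single y 1 - Finsupp.single (swap y) 1) :
      ((sub G e₀ t₀ h).cover (subSw sw e₀)).Point →₀ ℤ) =
      (Finsupp.single (ptMap h x) 1 - Finsupp.single (swap (ptMap h x)) 1) -
      (Finsupp.single (ptMap h y) 1 - Finsupp.single (swap (ptMap h y)) 1) := by
    have h2 : ∀ D : ((sub G e₀ t₀ h).cover (subSw sw e₀)).Point →₀ ℤ,
        Finsupp.mapDomain (ptMap h) D = Finsupp.mapDomain.addMonoidHom (ptMap (sw := sw) h) D :=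
      fun D => rfl
    rw [h2, map_sub, map_sub, map_sub]
    simp only [← h2, Finsupp.mapDomain_single, ptMap_swap]
  rw [h1]

lemma ptMap_inj : Function.Injective (ptMap (sw := sw) h) := by
  have hsome : ∀ {e : E} {s : Bool} {t : ℝ}
      (ht : 0 < t ∧ t < ((sub G e₀ t₀ h).cover (subSw sw e₀)).len (some e, s)),
      e = e₀ → t < t₀ := by
    intro e s t ht he
    have h2 : t < if e = e₀ then t₀ else G.len e := ht.2
    rwa [if_pos he] at h2
  intro x y hxy
  rcases x with ⟨(_ | v), s⟩ | ⟨⟨⟨(_ | e), s⟩, t⟩, ht⟩ <;>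
  rcases y with ⟨(_ | v'), s'⟩ | ⟨⟨⟨(_ | e'), s'⟩, t'⟩, ht'⟩ <;>
  simp only [ptMap] at hxy
  · have h1 : s = s' := (inr_coord hxy).2.1
    rw [h1]
  · exact absurd hxy (by simp)
  · have h1 : t₀ = t' + t₀ := (inr_coord hxy).2.2
    have h2 : 0 < t' := ht'.1
    linarith
  · have h1 : e₀ = e' := (inr_coord hxy).1
    have h3 : t₀ = t' := (inr_coord hxy).2.2
    have h2 := hsome ht' h1.symm
    linarith
  · exact absurd hxy (by simp)
  · have h1 := Sum.inl.inj hxy
    simp only [Prod.mk.injEq] at h1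
    rw [h1.1, h1.2]
  · exact absurd hxy (by simp)
  · exact absurd hxy (by simp)
  · have h1 : t + t₀ = t₀ := (inr_coord hxy).2.2
    have h2 : 0 < t := ht.1
    linarith
  · exact absurd hxy (by simp)
  · have h1 : s = s' := (inr_coord hxy).2.1
    have h3 : t + t₀ = t' + t₀ := (inr_coord hxy).2.2
    have h4 : t = t' := by linarith
    subst h1
    subst h4
    rfl
  · have h1 : e₀ = e' := (inr_coord hxy).1
    have h3 : t + t₀ = t' := (inr_coord hxy).2.2
    have h2 := hsome ht' h1.symm
    have h5 : 0 < t := ht.1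
    linarith
  · have h1 : e = e₀ := (inr_coord hxy).1
    have h3 : t = t₀ := (inr_coord hxy).2.2
    have h2 := hsome ht h1
    linarith
  · exact absurd hxy (by simp)
  · have h1 : e = e₀ := (inr_coord hxy).1
    have h3 : t = t' + t₀ := (inr_coord hxy).2.2
    have h2 := hsome ht h1
    have h5 : 0 < t' := ht'.1
    linarith
  · have h1 : e = e' := (inr_coord hxy).1
    have h2 : s = s' := (inr_coord hxy).2.1
    have h3 : t = t' := (inr_coord hxy).2.2
    subst h1
    subst h2
    subst h3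
    rfl

lemma bad_of_sub (hb : Bad (sub G e₀ t₀ h) (subSw sw e₀)) : Bad G sw := by
  obtain ⟨y, hy⟩ := hb
  refine ⟨ptMap h y, ?_⟩
  refine (hy.image ((ptMap_inj (sw := sw) h).injOn)).mono ?_
  rintro _ ⟨x, hx, rfl⟩
  exact (sameClass_iff h x y).1 hx

end transfer

/-- the case of a vertex and a point -/
lemma half_case {V E : Type} [Fintype V] [Fintype E] [DecidableEq V] [DecidableEq E]
    {G : MetricGraph V E} {sw : E → Bool} (hG : Good G sw) {p : (G.cover sw).Point} {q : V × Bool}
    (h : SameClass p (Sum.inl q)) (hpq : p ≠ Sum.inl q) : Bad G sw := by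
  rcases p with p | ⟨⟨⟨e, s⟩, t⟩, ht⟩
  · exact vertex_case G sw hG h (fun h' => hpq (by rw [h']))
  · have ht' : 0 < t ∧ t < G.len e := ht
    refine bad_of_sub (e₀ := e) (t₀ := t) ht' ?_
    refine vertex_case _ _ (Good.sub (h := ht') hG) (p := (none, s)) (q := (some q.1, q.2)) ?_ ?_
    · rw [sameClass_iff]
      exact h
    · simp

lemma full_case {V E : Type} [Fintype V] [Fintype E] [DecidableEq V] [DecidableEq E]
    {G : MetricGraph V E} {sw : E → Bool} (hG : Good G sw) {p q : (G.cover sw).Point}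
    (h : SameClass p q) (hpq : p ≠ q) : Bad G sw := by
  rcases q with q | ⟨⟨⟨e, s⟩, t⟩, ht⟩
  · exact half_case hG h hpq
  · have ht' : 0 < t ∧ t < G.len e := ht
    obtain ⟨p', hp'⟩ := ptMap_surj (sw := sw) (h := ht') p
    refine bad_of_sub (e₀ := e) (t₀ := t) ht' ?_
    refine half_case (Good.sub (h := ht') hG) (p := p') (q := (none, s)) ?_ ?_
    · rw [sameClass_iff, hp']
      exact h
    · intro h'
      apply hpq
      rw [← hp', h']
      rfl

section good

variable {V E : Type} (G : MetricGraph V E) (sw : E → Bool)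

lemma reach_closed {A : Type} {Γ : SimpleGraph A} (hΓ : Γ.Preconnected) (P : A → Prop)
    (hP : ∀ a b, Γ.Adj a b → P a → P b) {a : A} (ha : P a) (b : A) : P b := by
  have h1 := hΓ a b
  rw [SimpleGraph.reachable_iff_reflTransGen] at h1
  induction h1 with
  | refl => exact ha
  | tail _ h2 ih => exact hP _ _ h2 ih

lemma inc_adj (x y : V ⊕ E) (h : G.incidence.Adj x y) : ∃ (v : V) (e : E),
    ((x = Sum.inl v ∧ y = Sum.inr e) ∨ (x = Sum.inr e ∧ y = Sum.inl v)) ∧
      (G.src e = v ∨ G.tgt e = v) := by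
  unfold MetricGraph.incidence at h
  rw [SimpleGraph.fromRel_adj] at h
  rcases h.2 with ⟨v, e, h1, h2, h3⟩ | ⟨v, e, h1, h2, h3⟩
  · exact ⟨v, e, Or.inl ⟨h1, h2⟩, h3⟩
  · exact ⟨v, e, Or.inr ⟨h2, h1⟩, h3⟩

lemma good_of (hc : (G.cover sw).IsConnected) (h2 : G.IsTwoConnected) : Good G sw := by
  refine ⟨?_, ?_, ?_⟩
  · intro S hS hcl w
    obtain ⟨w₀, hw₀⟩ := hS
    have h3 : (G.cover sw).incidence.Preconnected := hc.preconnected
    have := reach_closed h3 (fun x => Sum.elim (fun w => w ∈ S) (fun x => (G.cover sw).src x ∈ S) x)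
      (by
        intro a b hab ha
        obtain ⟨v, e, h4, h5⟩ := inc_adj _ a b hab
        have h6 := hcl e
        rcases h4 with ⟨rfl, rfl⟩ | ⟨rfl, rfl⟩
        · simp only [Sum.elim_inl, Sum.elim_inr] at ha ⊢
          rcases h5 with h5 | h5 <;> rw [← h5] at ha <;> tauto
        · simp only [Sum.elim_inl, Sum.elim_inr] at ha ⊢
          rcases h5 with h5 | h5 <;> rw [← h5] <;> tauto) (a := Sum.inl w₀) hw₀ (Sum.inl w)
    exact this
  · intro e U hU hcl v
    obtain ⟨v₀, hv₀⟩ := hU
    have := reach_closed (h2 (Sum.inr e))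
      (fun x => Sum.elim (fun w => w ∈ U) (fun x => G.src x ∈ U) x.1) (by
        rintro ⟨a, ha0⟩ ⟨b, hb0⟩ hab ha
        obtain ⟨v, e', h4, h5⟩ := inc_adj _ a b hab
        rcases h4 with ⟨rfl, rfl⟩ | ⟨rfl, rfl⟩
        · have h6 := hcl e' (by
            rintro rfl
            exact hb0 rfl)
          simp only [Sum.elim_inl, Sum.elim_inr] at ha ⊢
          rcases h5 with h5 | h5 <;> rw [← h5] at ha <;> tauto
        · have h6 := hcl e' (by
            rintro rfl
            exact ha0 rfl)
          simp only [Sum.elim_inl, Sum.elim_inr] at ha ⊢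
          rcases h5 with h5 | h5 <;> rw [← h5] <;> tauto)
      (a := ⟨Sum.inl v₀, by simp⟩) hv₀ ⟨Sum.inl v, by simp⟩
    exact this
  · intro z U F hz hne hF hUF
    have key : ∀ x : ({Sum.inl z}ᶜ : Set (V ⊕ E)),
        (Sum.elim (fun w => w ∈ U) (fun x => x ∈ F) x.1 : Prop) := by
      have hcl : ∀ a b, (G.incidence.induce ({Sum.inl z}ᶜ : Set (V ⊕ E))).Adj a b →
          (Sum.elim (fun w => w ∈ U) (fun x => x ∈ F) a.1 : Prop) →
          (Sum.elim (fun w => w ∈ U) (fun x => x ∈ F) b.1 : Prop) := by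
        rintro ⟨a, ha0⟩ ⟨b, hb0⟩ hab ha
        obtain ⟨v, e', h4, h5⟩ := inc_adj _ a b hab
        rcases h4 with ⟨rfl, rfl⟩ | ⟨rfl, rfl⟩
        · simp only [Sum.elim_inl, Sum.elim_inr] at ha ⊢
          rcases h5 with h5 | h5 <;> rw [← h5] at ha
          · exact hUF e' (Or.inl ha)
          · exact hUF e' (Or.inr ha)
        · simp only [Sum.elim_inl, Sum.elim_inr] at ha ⊢
          have h6 := hF e' ha
          have h7 : v ≠ z := by
            rintro rfl
            exact hb0 rfl
          rcases h5 with h5 | h5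
          · rw [h5] at h6
            tauto
          · rw [h5] at h6
            tauto
      intro x
      rcases hne with ⟨v, hv⟩ | ⟨e, he⟩
      · refine reach_closed (h2 (Sum.inl z)) _ hcl (a := ⟨Sum.inl v, ?_⟩) hv x
        intro h8
        have h9 : v = z := Sum.inl.inj h8
        exact hz (h9 ▸ hv)
      · exact reach_closed (h2 (Sum.inl z)) _ hcl (a := ⟨Sum.inr e, by simp⟩) he x
    refine ⟨fun v hv => key ⟨Sum.inl v, ?_⟩, fun e => key ⟨Sum.inr e, by simp⟩⟩
    intro h8
    exact hv (Sum.inl.inj h8)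

end good

end Pool.Agent.H53.AP
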